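import Mathlib

set_option autoImplicit false

namespace Pool.Agent.H34C.J1

open Finset

/-- the number of cyclic subgroups -/
noncomputable def cyc (G : Type*) [Group G] : ℕ := Nat.card {C : Subgroup G // IsCyclic C}

/-- no nontrivial normal subgroup of prime power order -/
def NoN (G : Type*) [Group G] : Prop :=
  ∀ p : ℕ, p.Prime → ∀ N : Subgroup G, N.Normal → IsPGroup p N → N = ⊥

open Classical in
theorem fib_le {H : Type*} [Group H] [Fintype H] (b : H) :
    (univ.filter (fun a : H => Subgroup.zpowers a = Subgroup.zpowers b)).card ≤ Nat.totient (orderOf b) := by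
  set C := Subgroup.zpowers b with hC
  have hcard : Nat.card C = orderOf b := Nat.card_zpowers b
  have hc2 : Fintype.card C = orderOf b := by rw [← hcard, Nat.card_eq_fintype_card]
  have h1 := IsCyclic.card_orderOf_eq_totient (α := C) (d := orderOf b) (by rw [hc2])
  rw [← h1]
  have hmem : ∀ a ∈ univ.filter (fun a : H => Subgroup.zpowers a = C), a ∈ C := by
    intro a ha
    rw [mem_filter] at ha
    rw [← ha.2]
    exact Subgroup.mem_zpowers a
  refine Finset.card_le_card_of_injOn (fun a => if h : a ∈ C then (⟨a, h⟩ : C) else 1) ?_ ?_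
  · intro a ha
    have hm := hmem a ha
    simp only [Finset.mem_coe] at ha
    rw [mem_filter] at ha
    simp only [Finset.mem_coe, mem_filter, mem_univ, true_and]
    rw [dif_pos hm, Subgroup.orderOf_mk, ← Nat.card_zpowers a, ha.2, hcard]
  · intro a ha a' ha' he
    have hm := hmem a ha
    have hm' := hmem a' ha'
    simp only at he
    rw [dif_pos hm, dif_pos hm'] at he
    exact congrArg Subtype.val he

theorem conj_mem {H : Type*} [Group H] (z g h : H) :
    h ∈ Subgroup.zpowers z ↔ g * h * g⁻¹ ∈ Subgroup.zpowers (g * z * g⁻¹) := by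
  constructor
  · rintro ⟨n, hn⟩
    refine ⟨n, ?_⟩
    simp only at hn ⊢
    rw [conj_zpow, hn]
  · rintro ⟨n, hn⟩
    refine ⟨n, ?_⟩
    simp only at hn ⊢
    rw [conj_zpow] at hn
    exact mul_left_cancel (mul_right_cancel hn)

open Classical in
theorem img_ge {H : Type*} [Group H] [Fintype H] (z : H) :
    (Subgroup.normalizer (Subgroup.zpowers z : Set H)).index ≤
      (univ.image (fun g : H => Subgroup.zpowers (g * z * g⁻¹))).card := by
  set N := Subgroup.normalizer (Subgroup.zpowers z : Set H) with hN
  have h1 : (univ : Finset H).card ≤ Nat.card N *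
      (univ.image (fun g : H => Subgroup.zpowers (g * z * g⁻¹))).card := by
    refine Finset.card_le_mul_card_image univ _ ?_
    intro C hC
    rw [mem_image] at hC
    obtain ⟨g0, -, rfl⟩ := hC
    rw [Nat.card_eq_fintype_card]
    have hmem : ∀ g ∈ univ.filter (fun g : H => Subgroup.zpowers (g * z * g⁻¹) =
        Subgroup.zpowers (g0 * z * g0⁻¹)), g0⁻¹ * g ∈ N := by
      intro g hg
      rw [mem_filter] at hg
      rw [hN, Subgroup.mem_normalizer_iff]
      intro h
      rw [conj_mem z g h, hg.2, conj_mem z g0 (g0⁻¹ * g * h * (g0⁻¹ * g)⁻¹)]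
      have : g0 * (g0⁻¹ * g * h * (g0⁻¹ * g)⁻¹) * g0⁻¹ = g * h * g⁻¹ := by group
      rw [this]
    rw [← Finset.card_univ (α := N)]
    refine Finset.card_le_card_of_injOn (fun g => if h : g0⁻¹ * g ∈ N then (⟨g0⁻¹ * g, h⟩ : N) else 1) ?_ ?_
    · intro g _
      simp
    · intro g hg g' hg' he
      have hm := hmem g hg
      have hm' := hmem g' hg'
      simp only at he
      rw [dif_pos hm, dif_pos hm'] at he
      exact mul_left_cancel (congrArg Subtype.val he)
  rw [Finset.card_univ, ← Nat.card_eq_fintype_card, ← N.card_mul_index] at h1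
  exact Nat.le_of_mul_le_mul_left h1 Nat.card_pos

theorem job {H : Type*} [Group H] [Finite H] (m : ℕ) (hm : ∀ a : H, Nat.totient (orderOf a) ≤ m)
    (k : ℕ → ℕ) (hk : ∀ p ∈ (Nat.card H).primeFactors, ∃ z : H, orderOf z = p ∧
      k p ≤ (Subgroup.normalizer (Subgroup.zpowers z : Set H)).index) :
    Nat.card H + (m - 1) + ∑ p ∈ (Nat.card H).primeFactors, k p * (m - (p - 1)) ≤
      m * cyc H := by
  classical
  have : Fintype H := Fintype.ofFinite H
  have : Fintype (Subgroup H) := Fintype.ofFinite _
  set T : Finset (Subgroup H) := univ.image (fun a : H => Subgroup.zpowers a) with hT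
  set F : Subgroup H → ℕ := fun C => (univ.filter (fun a : H => Subgroup.zpowers a = C)).card with hF
  have hcyc : T.card ≤ cyc H := by
    unfold cyc
    rw [Nat.card_eq_fintype_card, Fintype.card_subtype]
    refine Finset.card_le_card ?_
    intro C hC
    rw [hT, mem_image] at hC
    obtain ⟨a, -, rfl⟩ := hC
    rw [mem_filter]
    exact ⟨mem_univ _, inferInstance⟩
  have hFb : ∀ C ∈ T, F C ≤ Nat.totient (Nat.card C) := by
    intro C hC
    rw [hT, mem_image] at hC
    obtain ⟨a, -, rfl⟩ := hC
    rw [Nat.card_zpowers]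
    exact fib_le a
  have hFm : ∀ C ∈ T, F C ≤ m := by
    intro C hC
    have h1 := hFb C hC
    rw [hT, mem_image] at hC
    obtain ⟨a, -, rfl⟩ := hC
    rw [Nat.card_zpowers] at h1
    exact h1.trans (hm a)
  have hH : Nat.card H = ∑ C ∈ T, F C := by
    rw [Nat.card_eq_fintype_card, ← Finset.card_univ]
    exact Finset.card_eq_sum_card_image _ _
  have hsum : m * T.card = Nat.card H + ∑ C ∈ T, (m - F C) := by
    rw [hH, ← Finset.sum_add_distrib]
    have : ∀ C ∈ T, F C + (m - F C) = m := fun C hC => by
      have := hFm C hC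
      omega
    rw [Finset.sum_congr rfl this, Finset.sum_const, smul_eq_mul, mul_comm]
  have hlow : (m - 1) + ∑ p ∈ (Nat.card H).primeFactors, k p * (m - (p - 1)) ≤
      ∑ C ∈ T, (m - F C) := by
    have h1n : 1 ∉ (Nat.card H).primeFactors := by
      intro h
      exact Nat.not_prime_one (Nat.prime_of_mem_primeFactors h)
    have hdisj : (((insert 1 (Nat.card H).primeFactors : Finset ℕ)) : Set ℕ).PairwiseDisjoint
        (fun n => T.filter (fun C : Subgroup H => Nat.card C = n)) := by
      intro a _ b _ hab
      rw [Function.onFun, Finset.disjoint_left]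
      intro C h1 h2
      rw [mem_filter] at h1 h2
      exact hab (h1.2.symm.trans h2.2)
    have h2 : ∑ n ∈ insert 1 (Nat.card H).primeFactors, ∑ C ∈ T.filter (fun C : Subgroup H => Nat.card C = n), (m - F C)
        ≤ ∑ C ∈ T, (m - F C) := by
      rw [← Finset.sum_biUnion hdisj]
      refine Finset.sum_le_sum_of_subset ?_
      intro C hC
      rw [mem_biUnion] at hC
      obtain ⟨n, -, hn⟩ := hC
      exact (mem_filter.1 hn).1
    refine le_trans ?_ h2
    rw [Finset.sum_insert h1n]
    refine Nat.add_le_add ?_ (Finset.sum_le_sum ?_)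
    · have hb : Subgroup.zpowers (1 : H) ∈ T.filter (fun C : Subgroup H => Nat.card C = 1) := by
        rw [mem_filter]
        refine ⟨mem_image_of_mem _ (mem_univ _), ?_⟩
        rw [Nat.card_zpowers, orderOf_one]
      refine le_trans ?_ (Finset.single_le_sum (f := fun C => m - F C) (fun _ _ => Nat.zero_le _) hb)
      have := hFb _ (mem_filter.1 hb).1
      rw [(mem_filter.1 hb).2, Nat.totient_one] at this
      omega
    · intro p hp
      obtain ⟨z, hz, hkz⟩ := hk p hp
      have hpp := Nat.prime_of_mem_primeFactors hp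
      have hsub : univ.image (fun g : H => Subgroup.zpowers (g * z * g⁻¹)) ⊆
          T.filter (fun C : Subgroup H => Nat.card C = p) := by
        intro C hC
        rw [mem_image] at hC
        obtain ⟨g, -, rfl⟩ := hC
        rw [mem_filter]
        refine ⟨mem_image_of_mem _ (mem_univ _), ?_⟩
        rw [Nat.card_zpowers]
        have : g * z * g⁻¹ = MulAut.conj g z := by simp
        rw [this, MulEquiv.orderOf_eq, hz]
      have hcardp : k p ≤ (T.filter (fun C : Subgroup H => Nat.card C = p)).card :=
        hkz.trans ((img_ge z).trans (Finset.card_le_card hsub))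
      calc k p * (m - (p - 1)) ≤ (T.filter (fun C : Subgroup H => Nat.card C = p)).card * (m - (p - 1)) :=
            Nat.mul_le_mul_right _ hcardp
        _ = ∑ C ∈ T.filter (fun C : Subgroup H => Nat.card C = p), (m - (p - 1)) := by
            rw [Finset.sum_const, smul_eq_mul]
        _ ≤ _ := by
            refine Finset.sum_le_sum ?_
            intro C hC
            have := hFb C (mem_filter.1 hC).1
            rw [(mem_filter.1 hC).2, Nat.totient_prime hpp] at this
            omega
  calc _ = Nat.card H + ((m - 1) + ∑ p ∈ (Nat.card H).primeFactors, k p * (m - (p - 1))) := by ring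
    _ ≤ Nat.card H + ∑ C ∈ T, (m - F C) := Nat.add_le_add_left hlow _
    _ = m * T.card := hsum.symm
    _ ≤ m * cyc H := Nat.mul_le_mul_left _ hcyc

end Pool.Agent.H34C.J1
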