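import Mathlib

set_option autoImplicit false

namespace Pool.Agent.H34C.J2

open Finset

/-- the number of cyclic subgroups -/
noncomputable def cyc (G : Type*) [Group G] : ℕ := Nat.card {C : Subgroup G // IsCyclic C}

/-- no nontrivial normal subgroup of prime power order -/
def NoN (G : Type*) [Group G] : Prop :=
  ∀ p : ℕ, p.Prime → ∀ N : Subgroup G, N.Normal → IsPGroup p N → N = ⊥

/- Proof: P a Sylow p-subgroup, z in the centre of P of order p (IsPGroup.center_nontrivial, Cauchy). P ≤ normalizer of zpowers z, so the index divides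
card H / p^v. If v = 1 then zpowers z = P and the index is the number of Sylow p-subgroups (Sylow.card_eq_index_normalizer, card_sylow_modEq_one). -/
theorem job {H : Type*} [Group H] [Finite H] (p : ℕ) (hp : p.Prime) (hd : p ∣ Nat.card H) :
    ∃ z : H, orderOf z = p ∧
      (Subgroup.normalizer (Subgroup.zpowers z : Set H)).index ∣
        Nat.card H / p ^ (Nat.card H).factorization p ∧
      ((Nat.card H).factorization p = 1 →
        (Subgroup.normalizer (Subgroup.zpowers z : Set H)).index % p = 1 % p) := by
  have : Fact p.Prime := ⟨hp⟩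
  obtain ⟨P⟩ : Nonempty (Sylow p H) := inferInstance
  have hcard : Nat.card P = p ^ (Nat.card H).factorization p := P.card_eq_multiplicity
  have hne : Nat.card H ≠ 0 := Nat.card_pos.ne'
  have hv : 1 ≤ (Nat.card H).factorization p :=
    (hp.dvd_iff_one_le_factorization hne).1 hd
  have hnt : Nontrivial P := by
    rw [← Finite.one_lt_card_iff_nontrivial, hcard]
    exact Nat.one_lt_pow (by omega) hp.one_lt
  have hnc : Nontrivial (Subgroup.center P) := P.2.center_nontrivial
  have hdc : p ∣ Nat.card (Subgroup.center P) := by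
    obtain ⟨n, hn⟩ := IsPGroup.iff_card.1 (P.2.to_subgroup (Subgroup.center P))
    have h1 : 1 < Nat.card (Subgroup.center P) := Finite.one_lt_card_iff_nontrivial.2 hnc
    rw [hn] at h1 ⊢
    rcases n with _ | n
    · simp at h1
    · exact dvd_pow_self p (Nat.succ_ne_zero n)
  obtain ⟨x, hx⟩ := exists_prime_orderOf_dvd_card' p hdc
  obtain ⟨z, hz⟩ : ∃ z : H, z = ((x : P) : H) := ⟨_, rfl⟩
  have hoz : orderOf z = p := by
    rw [hz, Subgroup.orderOf_coe, Subgroup.orderOf_coe, hx]
  have hzP : z ∈ (P : Subgroup H) := by rw [hz]; exact (x : P).2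
  have hcomm : ∀ g ∈ (P : Subgroup H), g * z = z * g := by
    intro g hg
    have h1 := Subgroup.mem_center_iff.1 x.2 ⟨g, hg⟩
    have h2 := congrArg (Subtype.val : P → H) h1
    rw [hz]
    exact h2
  have hcz : ∀ g ∈ (P : Subgroup H), ∀ n : ℤ, g * z ^ n * g⁻¹ = z ^ n := by
    intro g hg n
    have h1 : Commute g z := hcomm g hg
    rw [(h1.zpow_right n).eq, mul_assoc, mul_inv_cancel, mul_one]
  have hle : (P : Subgroup H) ≤ Subgroup.normalizer (Subgroup.zpowers z : Set H) := by
    intro g hg
    rw [Subgroup.mem_normalizer_iff]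
    intro h
    constructor
    · intro hh
      obtain ⟨n, rfl⟩ := Subgroup.mem_zpowers_iff.1 hh
      rw [hcz g hg n]
      exact hh
    · intro hh
      obtain ⟨n, hn⟩ := Subgroup.mem_zpowers_iff.1 hh
      have h2 : h = g⁻¹ * z ^ n * g⁻¹⁻¹ := by
        rw [hn]
        group
      rw [h2, hcz g⁻¹ (inv_mem hg) n]
      exact Subgroup.mem_zpowers_iff.2 ⟨n, rfl⟩
  have hidx : (P : Subgroup H).index = Nat.card H / p ^ (Nat.card H).factorization p := by
    rw [← hcard, ← (P : Subgroup H).card_mul_index]
    exact (Nat.mul_div_cancel_left _ Nat.card_pos).symm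
  refine ⟨z, hoz, ?_, ?_⟩
  · rw [← hidx]
    exact Subgroup.index_dvd_of_le hle
  · intro h1
    have hzc : Subgroup.zpowers z = (P : Subgroup H) := by
      apply Subgroup.eq_of_le_of_card_ge
      · rw [Subgroup.zpowers_le]
        exact hzP
      · rw [Nat.card_zpowers, hoz]
        have : Nat.card (P : Subgroup H) = p ^ (Nat.card H).factorization p := hcard
        rw [this, h1, pow_one]
    rw [hzc]
    have h2 := card_sylow_modEq_one p H
    rw [P.card_eq_index_normalizer] at h2
    exact h2

end Pool.Agent.H34C.J2
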