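import Mathlib

set_option autoImplicit false

namespace Pool.Agent.H34C.J3

def L : List ℕ := [2, 3, 5, 7, 11, 13, 17, 19, 23, 29, 31, 37, 41, 43, 47, 53, 59, 61]

def mxf (n : ℕ) : ℕ :=
  ((List.range 64).filter (fun d => decide (0 < d) && (n % d == 0) && decide (d * d ≤ n))).foldr
    (fun d r => max (Nat.totient d) r) 0

def exc : List ℕ := [12, 18, 24, 40, 45, 56, 63, 60, 84, 90, 126, 132, 140, 198, 220, 234, 306]

def ps (n : ℕ) : List ℕ := L.filter (fun p => n % p == 0)

def chk (n : ℕ) : Bool :=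
  let l := ps n
  let t := l.length
  decide (t < 2) || decide (4 ^ (t + 2) ≤ n) || l.any (fun p => decide (n < p * p)) ||
    l.all (fun p => !(n % (p * p) == 0)) || exc.contains n ||
    decide (mxf n * (2 ^ (t + 2) - 1) < n + (mxf n - 1) +
      (l.map (fun p => max 5 (p + 1) * (mxf n - (p - 1)))).sum)

def blk (i : ℕ) : Bool := (List.range 256).all (fun j => chk (256 * i + j))

set_option maxRecDepth 100000 in
lemma b0 : (List.range 16).all blk = true := by decide +kernel

lemma chk_of_lt {n : ℕ} (hn : n < 4096) : chk n = true := by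
  have h := List.all_eq_true.1 b0 (n / 256) (List.mem_range.2 (by omega))
  have h2 := List.all_eq_true.1 h (n % 256) (List.mem_range.2 (by omega))
  have h3 : 256 * (n / 256) + n % 256 = n := Nat.div_add_mod n 256
  rw [h3] at h2
  exact h2

lemma foldr_ge (l : List ℕ) (d : ℕ) (hd : d ∈ l) :
    Nat.totient d ≤ l.foldr (fun d r => max (Nat.totient d) r) 0 := by
  induction l with
  | nil => simp at hd
  | cons a l ih =>
    rw [List.foldr_cons]
    rcases List.mem_cons.1 hd with rfl | h
    · exact le_max_left _ _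
    · exact (ih h).trans (le_max_right _ _)

lemma le_mxf {n d : ℕ} (hn0 : 0 < n) (hn : n < 4096) (hd : d ∣ n) (hdn : d * d ≤ n) :
    Nat.totient d ≤ mxf n := by
  apply foldr_ge
  have hd0 : 0 < d := Nat.pos_of_dvd_of_pos hd hn0
  have h64 : d < 64 := by nlinarith
  simp only [List.mem_filter, List.mem_range, Bool.and_eq_true, decide_eq_true_eq, beq_iff_eq]
  exact ⟨h64, ⟨hd0, Nat.mod_eq_zero_of_dvd hd⟩, hdn⟩

lemma L_nodup : L.Nodup := by decide

lemma L_prime : ∀ p ∈ L, p.Prime := by
  intro p hp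
  simp only [L, List.mem_cons, List.not_mem_nil, or_false] at hp
  rcases hp with rfl | rfl | rfl | rfl | rfl | rfl | rfl | rfl | rfl | rfl | rfl | rfl | rfl | rfl | rfl | rfl | rfl | rfl <;> norm_num

lemma mem_L {p : ℕ} (hp : p.Prime) (h : p < 64) : p ∈ L := by
  interval_cases p <;> first | decide | (exfalso; revert hp; norm_num)

lemma ps_eq {n : ℕ} (hn0 : 0 < n) (hn : n < 4096) (hp : ∀ p ∈ n.primeFactors, p * p ≤ n) :
    (ps n).toFinset = n.primeFactors := by
  ext p
  simp only [ps, List.mem_toFinset, List.mem_filter, beq_iff_eq, Nat.mem_primeFactors]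
  constructor
  · rintro ⟨h1, h2⟩
    exact ⟨L_prime p h1, Nat.dvd_of_mod_eq_zero h2, hn0.ne'⟩
  · rintro ⟨h1, h2, h3⟩
    have h4 := hp p (Nat.mem_primeFactors.2 ⟨h1, h2, h3⟩)
    exact ⟨mem_L h1 (by nlinarith), Nat.mod_eq_zero_of_dvd h2⟩

/-- the numerical statement for two, three or four primes -/
theorem num (n : ℕ) (hn0 : 0 < n) (hsq : ¬ Squarefree n) (h2 : 2 ≤ n.primeFactors.card)
    (h4 : n.primeFactors.card ≤ 4) (hlt : n < 4 ^ (n.primeFactors.card + 2))
    (hp : ∀ p ∈ n.primeFactors, p * p ≤ n) :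
    n ∈ exc ∨ mxf n * (2 ^ (n.primeFactors.card + 2) - 1) < n + (mxf n - 1) +
      ∑ p ∈ n.primeFactors, max 5 (p + 1) * (mxf n - (p - 1)) := by
  have hn : n < 4096 := by
    calc n < 4 ^ (n.primeFactors.card + 2) := hlt
      _ ≤ 4 ^ (4 + 2) := Nat.pow_le_pow_right (by norm_num) (by omega)
      _ = 4096 := by norm_num
  have hps := ps_eq hn0 hn hp
  have hnd : (ps n).Nodup := L_nodup.filter _
  have hlen : (ps n).length = n.primeFactors.card := by
    rw [← hps, List.toFinset_card_of_nodup hnd]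
  have hmem : ∀ p, p ∈ ps n ↔ p ∈ n.primeFactors := by
    intro p
    rw [← hps, List.mem_toFinset]
  have hc := chk_of_lt hn
  unfold chk at hc
  simp only [Bool.or_eq_true, decide_eq_true_eq, List.any_eq_true, List.all_eq_true,
    List.contains_iff_mem] at hc
  rw [hlen] at hc
  rcases hc with ((((hc | hc) | hc) | hc) | hc) | hc
  · omega
  · omega
  · obtain ⟨p, hp1, hp2⟩ := hc
    have := hp p ((hmem p).1 hp1)
    omega
  · exfalso
    apply hsq
    rw [Nat.squarefree_iff_prime_squarefree]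
    intro p hpp hpd
    have h1 : p ∈ n.primeFactors := Nat.mem_primeFactors.2
      ⟨hpp, (Dvd.intro _ rfl).trans hpd, hn0.ne'⟩
    have h3 := hc p ((hmem p).2 h1)
    rw [Nat.mod_eq_zero_of_dvd hpd] at h3
    simp at h3
  · exact Or.inl hc
  · right
    rw [← List.sum_toFinset _ hnd, hps] at hc
    exact hc

end Pool.Agent.H34C.J3
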