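import Mathlib

set_option autoImplicit false

namespace Pool.Agent.H34C.J4

open Finset

/-- the number of cyclic subgroups -/
noncomputable def cyc (G : Type*) [Group G] : ℕ := Nat.card {C : Subgroup G // IsCyclic C}

/-- no nontrivial normal subgroup of prime power order -/
def NoN (G : Type*) [Group G] : Prop :=
  ∀ p : ℕ, p.Prime → ∀ N : Subgroup G, N.Normal → IsPGroup p N → N = ⊥

theorem j4_aux {K : Type*} [Group K] [Finite K] (hc : Nat.card K = 45) (Q : Sylow 5 K) :
    (Q : Subgroup K).Characteristic ∧ Nat.card Q = 5 := by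
  haveI : Fact (Nat.Prime 5) := ⟨by norm_num⟩
  obtain ⟨k, hk⟩ := Q.2.exists_card_eq
  have h1 : Nat.card Q * (Q : Subgroup K).index = 45 := by
    rw [← hc]; exact Subgroup.card_mul_index _
  have h2 : ¬ 5 ∣ (Q : Subgroup K).index := Q.not_dvd_index
  have hQ : Nat.card Q = 5 ∧ (Q : Subgroup K).index = 9 := by
    have hk' : Nat.card Q = 5 ^ k := hk
    rw [hk'] at h1 ⊢
    have hk3 : k < 3 := by
      by_contra h3
      have : 5 ^ 3 ∣ 45 := (pow_dvd_pow 5 (not_lt.mp h3)).trans ⟨_, h1.symm⟩
      revert this; decide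
    interval_cases k
    · exfalso; apply h2; omega
    · constructor
      · norm_num
      · omega
    · exfalso; omega
  have h3 : Nat.card (Sylow 5 K) ∣ 9 := by
    rw [← hQ.2]; exact Sylow.card_dvd_index Q
  have h4 : Nat.card (Sylow 5 K) ≡ 1 [MOD 5] := card_sylow_modEq_one 5 K
  have h5 : Nat.card (Sylow 5 K) = 1 := by
    have h6 : Nat.card (Sylow 5 K) ≤ 9 := Nat.le_of_dvd (by norm_num) h3
    generalize Nat.card (Sylow 5 K) = n at *
    unfold Nat.ModEq at h4
    interval_cases n <;> omega
  haveI : Subsingleton (Sylow 5 K) := (Nat.card_eq_one_iff_unique.mp h5).1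
  have h7 : (Q : Subgroup K).Normal := Sylow.normal_of_subsingleton Q
  exact ⟨Sylow.characteristic_of_normal Q h7, hQ.1⟩

/- Proof: a Sylow 2-subgroup P has order 2, so its normaliser centralises it and by Burnside transfer (Mathlib: GroupTheory/Transfer.lean, e.g.
MonoidHom.ker_transferSylow_isComplement') there is a normal subgroup K of order 45. n_5(K) divides 9 and is 1 mod 5, so the Sylow 5-subgroup of K is normal in K, hence
characteristic (Sylow.characteristic_of_normal) and normal in H; this contradicts NoN H. -/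
theorem job {H : Type*} [Group H] [Finite H] (hc : Nat.card H = 90) (hN : NoN H) : False := by
  haveI : Fact (Nat.Prime 2) := ⟨Nat.prime_two⟩
  haveI : Fact (Nat.Prime 5) := ⟨by norm_num⟩
  obtain ⟨P⟩ : Nonempty (Sylow 2 H) := inferInstance
  have hP2 : Nat.card P = 2 := by
    obtain ⟨k, hk⟩ := P.2.exists_card_eq
    have h1 : Nat.card P * (P : Subgroup H).index = 90 := by
      rw [← hc]; exact Subgroup.card_mul_index _
    have h2 : ¬ 2 ∣ (P : Subgroup H).index := P.not_dvd_index
    have hk' : Nat.card P = 2 ^ k := hk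
    rw [hk'] at h1 ⊢
    have hk3 : k < 2 := by
      by_contra h3
      have : 2 ^ 2 ∣ 90 := (pow_dvd_pow 2 (not_lt.mp h3)).trans ⟨_, h1.symm⟩
      revert this; decide
    interval_cases k
    · exfalso; apply h2; omega
    · norm_num
  have hcyc : IsCyclic P := isCyclic_of_prime_card hP2
  have hmin : (Nat.card H).minFac = 2 := by rw [hc]; norm_num
  have hcomp := hcyc.isComplement' hmin
  set K : Subgroup H := (MonoidHom.transferSylow P (hcyc.normalizer_le_centralizer hmin)).ker with hK
  have hK45 : Nat.card K = 45 := by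
    have h1 := hcomp.card_mul
    have h2 : Nat.card K * Nat.card P = Nat.card H := h1
    rw [hP2, hc] at h2
    omega
  obtain ⟨Q⟩ : Nonempty (Sylow 5 K) := inferInstance
  obtain ⟨hchar, hQ5⟩ := j4_aux hK45 Q
  haveI : K.Normal := by rw [hK]; infer_instance
  haveI := hchar
  have hn : ((Q : Subgroup K).map K.subtype).Normal := ConjAct.normal_of_characteristic_of_normal
  have hb := hN 5 (by norm_num) _ hn (Q.2.map K.subtype)
  have hb2 : (Q : Subgroup K) = ⊥ := (Subgroup.map_eq_bot_iff_of_injective _ K.subtype_injective).mp hb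
  have h9 : Nat.card (Q : Subgroup K) = 1 := by rw [hb2]; exact Subgroup.card_bot
  have h10 : Nat.card (Q : Subgroup K) = 5 := hQ5
  omega

end Pool.Agent.H34C.J4
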