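import Mathlib

set_option autoImplicit false

namespace Pool.Agent.H34C.J5

open Finset

/-- the number of cyclic subgroups -/
noncomputable def cyc (G : Type*) [Group G] : ℕ := Nat.card {C : Subgroup G // IsCyclic C}

/-- no nontrivial normal subgroup of prime power order -/
def NoN (G : Type*) [Group G] : Prop :=
  ∀ p : ℕ, p.Prime → ∀ N : Subgroup G, N.Normal → IsPGroup p N → N = ⊥

theorem aux5 {K : Type*} [Group K] [Finite K] (hc : Nat.card K = 20) (Q : Sylow 5 K) :
    (Q : Subgroup K).Characteristic ∧ Nat.card Q = 5 := by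
  haveI : Fact (Nat.Prime 5) := ⟨by norm_num⟩
  obtain ⟨k, hk⟩ := Q.2.exists_card_eq
  have h1 : Nat.card Q * (Q : Subgroup K).index = 20 := by
    rw [← hc]; exact Subgroup.card_mul_index _
  have h2 : ¬ 5 ∣ (Q : Subgroup K).index := Q.not_dvd_index
  have hQ : Nat.card Q = 5 ∧ (Q : Subgroup K).index = 4 := by
    have hk' : Nat.card Q = 5 ^ k := hk
    rw [hk'] at h1 ⊢
    have hk3 : k < 2 := by
      by_contra h3
      have : 5 ^ 2 ∣ 20 := (pow_dvd_pow 5 (not_lt.mp h3)).trans ⟨_, h1.symm⟩
      revert this; decide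
    interval_cases k
    · exfalso; apply h2; omega
    · constructor
      · norm_num
      · omega
  have h3 : Nat.card (Sylow 5 K) ∣ 4 := by
    rw [← hQ.2]; exact Sylow.card_dvd_index Q
  have h4 : Nat.card (Sylow 5 K) ≡ 1 [MOD 5] := card_sylow_modEq_one 5 K
  have h5 : Nat.card (Sylow 5 K) = 1 := by
    have h6 : Nat.card (Sylow 5 K) ≤ 4 := Nat.le_of_dvd (by norm_num) h3
    generalize Nat.card (Sylow 5 K) = n at *
    unfold Nat.ModEq at h4
    interval_cases n <;> omega
  haveI : Subsingleton (Sylow 5 K) := (Nat.card_eq_one_iff_unique.mp h5).1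
  have h7 : (Q : Subgroup K).Normal := Sylow.normal_of_subsingleton Q
  exact ⟨Sylow.characteristic_of_normal Q h7, hQ.1⟩

theorem no20 {H : Type*} [Group H] [Finite H] (hN : NoN H) (K : Subgroup H) [K.Normal]
    (hK : Nat.card K = 20) : False := by
  haveI : Fact (Nat.Prime 5) := ⟨by norm_num⟩
  obtain ⟨Q⟩ : Nonempty (Sylow 5 K) := inferInstance
  obtain ⟨hchar, hQ5⟩ := aux5 hK Q
  haveI := hchar
  have hn : ((Q : Subgroup K).map K.subtype).Normal := ConjAct.normal_of_characteristic_of_normal
  have hb := hN 5 (by norm_num) _ hn (Q.2.map K.subtype)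
  have hb2 : (Q : Subgroup K) = ⊥ := (Subgroup.map_eq_bot_iff_of_injective _ K.subtype_injective).mp hb
  have h9 : Nat.card (Q : Subgroup K) = 1 := by rw [hb2]; exact Subgroup.card_bot
  have h10 : Nat.card (Q : Subgroup K) = 5 := hQ5
  omega

/-- if `z` has order `2`, `u` has order `3` and they commute then contradiction -/
theorem no6 {H : Type*} [Group H] [Finite H] (hc : Nat.card H = 60) (hN : NoN H)
    (h5 : ∀ z : H, (orderOf z).Prime →
      5 ≤ (Subgroup.normalizer (Subgroup.zpowers z : Set H)).index)
    (z u : H) (hz : orderOf z = 2) (hu : orderOf u = 3) (hzu : Commute z u) : False := by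
  haveI : Fact (Nat.Prime 3) := ⟨by norm_num⟩
  -- the Sylow 3-subgroup generated by u
  have hcu : Nat.card (Subgroup.zpowers u) = 3 := by rw [Nat.card_zpowers, hu]
  have hidx : (Subgroup.zpowers u).index = 20 := by
    have := (Subgroup.zpowers u).card_mul_index
    rw [hcu, hc] at this
    omega
  have hpg : IsPGroup 3 (Subgroup.zpowers u) := IsPGroup.of_card (n := 1) (by rw [hcu]; norm_num)
  let P : Sylow 3 H := hpg.toSylow (by rw [hidx]; norm_num)
  have hP : (P : Subgroup H) = Subgroup.zpowers u := rfl
  set N := Subgroup.normalizer (Subgroup.zpowers u : Set H) with hNdef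
  have hNi : N.index = 10 := by
    have h1 : 5 ≤ N.index := h5 u (by rw [hu]; norm_num)
    have h2 : N.index ∣ 20 := by
      rw [← hidx]; exact Subgroup.index_dvd_of_le Subgroup.le_normalizer
    have h3 := card_sylow_modEq_one 3 H
    rw [P.card_eq_index_normalizer] at h3
    have h3' : N.index ≡ 1 [MOD 3] := h3
    have h4 : N.index ≤ 20 := Nat.le_of_dvd (by norm_num) h2
    generalize N.index = n at *
    unfold Nat.ModEq at h3'
    interval_cases n <;> omega
  have hNc : Nat.card N = 6 := by
    have := N.card_mul_index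
    rw [hNi, hc] at this
    omega
  have hord : orderOf (z * u) = 6 := by
    rw [hzu.orderOf_mul_eq_mul_orderOf_of_coprime (by rw [hz, hu]; norm_num), hz, hu]
  have hcomm : Commute (z * u) u := hzu.mul_left (Commute.refl u)
  have hle : Subgroup.zpowers (z * u) ≤ N := by
    rw [Subgroup.zpowers_le, hNdef, Subgroup.mem_normalizer_iff]
    intro h
    have key : ∀ g : H, Commute g u → ∀ n : ℤ, g * u ^ n * g⁻¹ = u ^ n := by
      intro g hg n
      rw [(hg.zpow_right n).eq, mul_assoc, mul_inv_cancel, mul_one]
    constructor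
    · rintro ⟨n, rfl⟩
      exact ⟨n, (key _ hcomm n).symm⟩
    · rintro ⟨n, hn⟩
      refine ⟨n, ?_⟩
      have h2 : h = (z * u)⁻¹ * u ^ n * (z * u)⁻¹⁻¹ := by
        simp only at hn
        rw [hn]; group
      simp only
      rw [h2, key _ hcomm.inv_left n]
  have hNe : Subgroup.zpowers (z * u) = N := by
    apply Subgroup.eq_of_le_of_card_ge hle
    rw [hNc, Nat.card_zpowers, hord]
  have hcent : Subgroup.normalizer ((P : Subgroup H) : Set H) ≤ Subgroup.centralizer ((P : Subgroup H) : Set H) := by
    have e : Subgroup.normalizer ((P : Subgroup H) : Set H) = N := rfl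
    rw [e, ← hNe, Subgroup.zpowers_le, Subgroup.mem_centralizer_iff]
    rintro h ⟨n, rfl⟩
    exact ((hcomm.zpow_right n).eq).symm
  have hcomp := MonoidHom.ker_transferSylow_isComplement' P hcent
  have hcard := hcomp.card_mul
  have hPc : Nat.card P = 3 := hcu
  have hK : Nat.card (MonoidHom.transferSylow P hcent).ker = 20 := by
    have h2 : Nat.card (MonoidHom.transferSylow P hcent).ker * Nat.card P = Nat.card H := hcard
    rw [hPc, hc] at h2
    omega
  exact no20 hN _ hK

theorem k2 {H : Type*} [Group H] [Finite H] (hc : Nat.card H = 60) (hN : NoN H)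
    (h5 : ∀ z : H, (orderOf z).Prime →
      5 ≤ (Subgroup.normalizer (Subgroup.zpowers z : Set H)).index)
    (z : H) (hz : orderOf z = 2)
    (hd : (Subgroup.normalizer (Subgroup.zpowers z : Set H)).index ∣ 15) :
    (Subgroup.normalizer (Subgroup.zpowers z : Set H)).index = 15 := by
  haveI : Fact (Nat.Prime 3) := ⟨by norm_num⟩
  set N := Subgroup.normalizer (Subgroup.zpowers z : Set H) with hNdef
  have h1 : 5 ≤ N.index := h5 z (by rw [hz]; norm_num)
  have h2 : N.index ≤ 15 := Nat.le_of_dvd (by norm_num) hd
  have h3 : N.index = 5 ∨ N.index = 15 := by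
    generalize N.index = n at *
    interval_cases n <;> omega
  rcases h3 with h3 | h3
  · exfalso
    have hNc : Nat.card N = 12 := by
      have := N.card_mul_index
      rw [h3, hc] at this
      omega
    obtain ⟨u, hu⟩ := exists_prime_orderOf_dvd_card' (G := N) 3 (by rw [hNc]; norm_num)
    have hu' : orderOf (u : H) = 3 := by rw [Subgroup.orderOf_coe, hu]
    have hm := Subgroup.mem_normalizer_iff.1
      (show (u : H) ∈ Subgroup.normalizer (Subgroup.zpowers z : Set H) from u.2)
    have hmz := (hm z).1 (Subgroup.mem_zpowers z)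
    have hzz : z ^ 2 = 1 := by rw [← hz]; exact pow_orderOf_eq_one z
    have hz1 : z ≠ 1 := by rintro rfl; rw [orderOf_one] at hz; omega
    have hcm : (u : H) * z * (u : H)⁻¹ = z := by
      obtain ⟨n, hn⟩ := hmz
      simp only at hn
      rcases Int.even_or_odd' n with ⟨m, rfl | rfl⟩
      · exfalso
        rw [zpow_mul, zpow_ofNat, hzz, one_zpow] at hn
        have : z = 1 := by
          have h9 : z = (u : H)⁻¹ * ((u : H) * z * (u : H)⁻¹) * u := by group
          rw [h9, ← hn]; group
        exact hz1 this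
      · rw [zpow_add, zpow_mul, zpow_ofNat, hzz, one_zpow, one_mul, zpow_one] at hn
        exact hn.symm
    have hco : Commute z (u : H) := by
      have : (u : H) * z = z * u := by
        calc (u : H) * z = (u : H) * z * (u : H)⁻¹ * u := by group
          _ = z * u := by rw [hcm]
      exact this.symm
    exact no6 hc hN h5 z u hz hu' hco
  · exact h3



open Classical in
theorem fib_le {H : Type*} [Group H] [Fintype H] (b : H) :
    (univ.filter (fun a : H => Subgroup.zpowers a = Subgroup.zpowers b)).card ≤ Nat.totient (orderOf b) := by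
  set C := Subgroup.zpowers b with hC
  have hcard : Nat.card C = orderOf b := Nat.card_zpowers b
  have hc2 : Fintype.card C = orderOf b := by rw [← hcard, Nat.card_eq_fintype_card]
  have h1 := IsCyclic.card_orderOf_eq_totient (α := C) (d := orderOf b) (by rw [hc2])
  rw [← h1]
  have hmem : ∀ a ∈ univ.filter (fun a : H => Subgroup.zpowers a = C), a ∈ C := by
    intro a ha
    rw [mem_filter] at ha
    rw [← ha.2]
    exact Subgroup.mem_zpowers a
  refine Finset.card_le_card_of_injOn (fun a => if h : a ∈ C then (⟨a, h⟩ : C) else 1) ?_ ?_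
  · intro a ha
    have hm := hmem a ha
    simp only [Finset.mem_coe] at ha
    rw [mem_filter] at ha
    simp only [Finset.mem_coe, mem_filter, mem_univ, true_and]
    rw [dif_pos hm, Subgroup.orderOf_mk, ← Nat.card_zpowers a, ha.2, hcard]
  · intro a ha a' ha' he
    have hm := hmem a ha
    have hm' := hmem a' ha'
    simp only at he
    rw [dif_pos hm, dif_pos hm'] at he
    exact congrArg Subtype.val he

theorem conj_mem {H : Type*} [Group H] (z g h : H) :
    h ∈ Subgroup.zpowers z ↔ g * h * g⁻¹ ∈ Subgroup.zpowers (g * z * g⁻¹) := by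
  constructor
  · rintro ⟨n, hn⟩
    refine ⟨n, ?_⟩
    simp only at hn ⊢
    rw [conj_zpow, hn]
  · rintro ⟨n, hn⟩
    refine ⟨n, ?_⟩
    simp only at hn ⊢
    rw [conj_zpow] at hn
    exact mul_left_cancel (mul_right_cancel hn)

open Classical in
theorem img_ge {H : Type*} [Group H] [Fintype H] (z : H) :
    (Subgroup.normalizer (Subgroup.zpowers z : Set H)).index ≤
      (univ.image (fun g : H => Subgroup.zpowers (g * z * g⁻¹))).card := by
  set N := Subgroup.normalizer (Subgroup.zpowers z : Set H) with hN
  have h1 : (univ : Finset H).card ≤ Nat.card N *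
      (univ.image (fun g : H => Subgroup.zpowers (g * z * g⁻¹))).card := by
    refine Finset.card_le_mul_card_image univ _ ?_
    intro C hC
    rw [mem_image] at hC
    obtain ⟨g0, -, rfl⟩ := hC
    rw [Nat.card_eq_fintype_card]
    have hmem : ∀ g ∈ univ.filter (fun g : H => Subgroup.zpowers (g * z * g⁻¹) =
        Subgroup.zpowers (g0 * z * g0⁻¹)), g0⁻¹ * g ∈ N := by
      intro g hg
      rw [mem_filter] at hg
      rw [hN, Subgroup.mem_normalizer_iff]
      intro h
      rw [conj_mem z g h, hg.2, conj_mem z g0 (g0⁻¹ * g * h * (g0⁻¹ * g)⁻¹)]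
      have : g0 * (g0⁻¹ * g * h * (g0⁻¹ * g)⁻¹) * g0⁻¹ = g * h * g⁻¹ := by group
      rw [this]
    rw [← Finset.card_univ (α := N)]
    refine Finset.card_le_card_of_injOn (fun g => if h : g0⁻¹ * g ∈ N then (⟨g0⁻¹ * g, h⟩ : N) else 1) ?_ ?_
    · intro g _
      simp
    · intro g hg g' hg' he
      have hm := hmem g hg
      have hm' := hmem g' hg'
      simp only at he
      rw [dif_pos hm, dif_pos hm'] at he
      exact mul_left_cancel (congrArg Subtype.val he)
  rw [Finset.card_univ, ← Nat.card_eq_fintype_card, ← N.card_mul_index] at h1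
  exact Nat.le_of_mul_le_mul_left h1 Nat.card_pos

theorem job1 {H : Type*} [Group H] [Finite H] (m : ℕ) (hm : ∀ a : H, Nat.totient (orderOf a) ≤ m)
    (k : ℕ → ℕ) (hk : ∀ p ∈ (Nat.card H).primeFactors, ∃ z : H, orderOf z = p ∧
      k p ≤ (Subgroup.normalizer (Subgroup.zpowers z : Set H)).index) :
    Nat.card H + (m - 1) + ∑ p ∈ (Nat.card H).primeFactors, k p * (m - (p - 1)) ≤
      m * cyc H := by
  classical
  have : Fintype H := Fintype.ofFinite H
  have : Fintype (Subgroup H) := Fintype.ofFinite _
  set T : Finset (Subgroup H) := univ.image (fun a : H => Subgroup.zpowers a) with hT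
  set F : Subgroup H → ℕ := fun C => (univ.filter (fun a : H => Subgroup.zpowers a = C)).card with hF
  have hcyc : T.card ≤ cyc H := by
    unfold cyc
    rw [Nat.card_eq_fintype_card, Fintype.card_subtype]
    refine Finset.card_le_card ?_
    intro C hC
    rw [hT, mem_image] at hC
    obtain ⟨a, -, rfl⟩ := hC
    rw [mem_filter]
    exact ⟨mem_univ _, inferInstance⟩
  have hFb : ∀ C ∈ T, F C ≤ Nat.totient (Nat.card C) := by
    intro C hC
    rw [hT, mem_image] at hC
    obtain ⟨a, -, rfl⟩ := hC
    rw [Nat.card_zpowers]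
    exact fib_le a
  have hFm : ∀ C ∈ T, F C ≤ m := by
    intro C hC
    have h1 := hFb C hC
    rw [hT, mem_image] at hC
    obtain ⟨a, -, rfl⟩ := hC
    rw [Nat.card_zpowers] at h1
    exact h1.trans (hm a)
  have hH : Nat.card H = ∑ C ∈ T, F C := by
    rw [Nat.card_eq_fintype_card, ← Finset.card_univ]
    exact Finset.card_eq_sum_card_image _ _
  have hsum : m * T.card = Nat.card H + ∑ C ∈ T, (m - F C) := by
    rw [hH, ← Finset.sum_add_distrib]
    have : ∀ C ∈ T, F C + (m - F C) = m := fun C hC => by
      have := hFm C hC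
      omega
    rw [Finset.sum_congr rfl this, Finset.sum_const, smul_eq_mul, mul_comm]
  have hlow : (m - 1) + ∑ p ∈ (Nat.card H).primeFactors, k p * (m - (p - 1)) ≤
      ∑ C ∈ T, (m - F C) := by
    have h1n : 1 ∉ (Nat.card H).primeFactors := by
      intro h
      exact Nat.not_prime_one (Nat.prime_of_mem_primeFactors h)
    have hdisj : (((insert 1 (Nat.card H).primeFactors : Finset ℕ)) : Set ℕ).PairwiseDisjoint
        (fun n => T.filter (fun C : Subgroup H => Nat.card C = n)) := by
      intro a _ b _ hab
      rw [Function.onFun, Finset.disjoint_left]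
      intro C h1 h2
      rw [mem_filter] at h1 h2
      exact hab (h1.2.symm.trans h2.2)
    have h2 : ∑ n ∈ insert 1 (Nat.card H).primeFactors, ∑ C ∈ T.filter (fun C : Subgroup H => Nat.card C = n), (m - F C)
        ≤ ∑ C ∈ T, (m - F C) := by
      rw [← Finset.sum_biUnion hdisj]
      refine Finset.sum_le_sum_of_subset ?_
      intro C hC
      rw [mem_biUnion] at hC
      obtain ⟨n, -, hn⟩ := hC
      exact (mem_filter.1 hn).1
    refine le_trans ?_ h2
    rw [Finset.sum_insert h1n]
    refine Nat.add_le_add ?_ (Finset.sum_le_sum ?_)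
    · have hb : Subgroup.zpowers (1 : H) ∈ T.filter (fun C : Subgroup H => Nat.card C = 1) := by
        rw [mem_filter]
        refine ⟨mem_image_of_mem _ (mem_univ _), ?_⟩
        rw [Nat.card_zpowers, orderOf_one]
      refine le_trans ?_ (Finset.single_le_sum (f := fun C => m - F C) (fun _ _ => Nat.zero_le _) hb)
      have := hFb _ (mem_filter.1 hb).1
      rw [(mem_filter.1 hb).2, Nat.totient_one] at this
      omega
    · intro p hp
      obtain ⟨z, hz, hkz⟩ := hk p hp
      have hpp := Nat.prime_of_mem_primeFactors hp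
      have hsub : univ.image (fun g : H => Subgroup.zpowers (g * z * g⁻¹)) ⊆
          T.filter (fun C : Subgroup H => Nat.card C = p) := by
        intro C hC
        rw [mem_image] at hC
        obtain ⟨g, -, rfl⟩ := hC
        rw [mem_filter]
        refine ⟨mem_image_of_mem _ (mem_univ _), ?_⟩
        rw [Nat.card_zpowers]
        have : g * z * g⁻¹ = MulAut.conj g z := by simp
        rw [this, MulEquiv.orderOf_eq, hz]
      have hcardp : k p ≤ (T.filter (fun C : Subgroup H => Nat.card C = p)).card :=
        hkz.trans ((img_ge z).trans (Finset.card_le_card hsub))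
      calc k p * (m - (p - 1)) ≤ (T.filter (fun C : Subgroup H => Nat.card C = p)).card * (m - (p - 1)) :=
            Nat.mul_le_mul_right _ hcardp
        _ = ∑ C ∈ T.filter (fun C : Subgroup H => Nat.card C = p), (m - (p - 1)) := by
            rw [Finset.sum_const, smul_eq_mul]
        _ ≤ _ := by
            refine Finset.sum_le_sum ?_
            intro C hC
            have := hFb C (mem_filter.1 hC).1
            rw [(mem_filter.1 hC).2, Nat.totient_prime hpp] at this
            omega
  calc _ = Nat.card H + ((m - 1) + ∑ p ∈ (Nat.card H).primeFactors, k p * (m - (p - 1))) := by ring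
    _ ≤ Nat.card H + ∑ C ∈ T, (m - F C) := Nat.add_le_add_left hlow _
    _ = m * T.card := hsum.symm
    _ ≤ m * cyc H := Nat.mul_le_mul_left _ hcyc



/- Proof: P a Sylow p-subgroup, z in the centre of P of order p (IsPGroup.center_nontrivial, Cauchy). P ≤ normalizer of zpowers z, so the index divides
card H / p^v. If v = 1 then zpowers z = P and the index is the number of Sylow p-subgroups (Sylow.card_eq_index_normalizer, card_sylow_modEq_one). -/
theorem job2 {H : Type*} [Group H] [Finite H] (p : ℕ) (hp : p.Prime) (hd : p ∣ Nat.card H) :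
    ∃ z : H, orderOf z = p ∧
      (Subgroup.normalizer (Subgroup.zpowers z : Set H)).index ∣
        Nat.card H / p ^ (Nat.card H).factorization p ∧
      ((Nat.card H).factorization p = 1 →
        (Subgroup.normalizer (Subgroup.zpowers z : Set H)).index % p = 1 % p) := by
  have : Fact p.Prime := ⟨hp⟩
  obtain ⟨P⟩ : Nonempty (Sylow p H) := inferInstance
  have hcard : Nat.card P = p ^ (Nat.card H).factorization p := P.card_eq_multiplicity
  have hne : Nat.card H ≠ 0 := Nat.card_pos.ne'
  have hv : 1 ≤ (Nat.card H).factorization p :=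
    (hp.dvd_iff_one_le_factorization hne).1 hd
  have hnt : Nontrivial P := by
    rw [← Finite.one_lt_card_iff_nontrivial, hcard]
    exact Nat.one_lt_pow (by omega) hp.one_lt
  have hnc : Nontrivial (Subgroup.center P) := P.2.center_nontrivial
  have hdc : p ∣ Nat.card (Subgroup.center P) := by
    obtain ⟨n, hn⟩ := IsPGroup.iff_card.1 (P.2.to_subgroup (Subgroup.center P))
    have h1 : 1 < Nat.card (Subgroup.center P) := Finite.one_lt_card_iff_nontrivial.2 hnc
    rw [hn] at h1 ⊢
    rcases n with _ | n
    · simp at h1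
    · exact dvd_pow_self p (Nat.succ_ne_zero n)
  obtain ⟨x, hx⟩ := exists_prime_orderOf_dvd_card' p hdc
  obtain ⟨z, hz⟩ : ∃ z : H, z = ((x : P) : H) := ⟨_, rfl⟩
  have hoz : orderOf z = p := by
    rw [hz, Subgroup.orderOf_coe, Subgroup.orderOf_coe, hx]
  have hzP : z ∈ (P : Subgroup H) := by rw [hz]; exact (x : P).2
  have hcomm : ∀ g ∈ (P : Subgroup H), g * z = z * g := by
    intro g hg
    have h1 := Subgroup.mem_center_iff.1 x.2 ⟨g, hg⟩
    have h2 := congrArg (Subtype.val : P → H) h1
    rw [hz]
    exact h2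
  have hcz : ∀ g ∈ (P : Subgroup H), ∀ n : ℤ, g * z ^ n * g⁻¹ = z ^ n := by
    intro g hg n
    have h1 : Commute g z := hcomm g hg
    rw [(h1.zpow_right n).eq, mul_assoc, mul_inv_cancel, mul_one]
  have hle : (P : Subgroup H) ≤ Subgroup.normalizer (Subgroup.zpowers z : Set H) := by
    intro g hg
    rw [Subgroup.mem_normalizer_iff]
    intro h
    constructor
    · intro hh
      obtain ⟨n, rfl⟩ := Subgroup.mem_zpowers_iff.1 hh
      rw [hcz g hg n]
      exact hh
    · intro hh
      obtain ⟨n, hn⟩ := Subgroup.mem_zpowers_iff.1 hh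
      have h2 : h = g⁻¹ * z ^ n * g⁻¹⁻¹ := by
        rw [hn]
        group
      rw [h2, hcz g⁻¹ (inv_mem hg) n]
      exact Subgroup.mem_zpowers_iff.2 ⟨n, rfl⟩
  have hidx : (P : Subgroup H).index = Nat.card H / p ^ (Nat.card H).factorization p := by
    rw [← hcard, ← (P : Subgroup H).card_mul_index]
    exact (Nat.mul_div_cancel_left _ Nat.card_pos).symm
  refine ⟨z, hoz, ?_, ?_⟩
  · rw [← hidx]
    exact Subgroup.index_dvd_of_le hle
  · intro h1
    have hzc : Subgroup.zpowers z = (P : Subgroup H) := by
      apply Subgroup.eq_of_le_of_card_ge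
      · rw [Subgroup.zpowers_le]
        exact hzP
      · rw [Nat.card_zpowers, hoz]
        have : Nat.card (P : Subgroup H) = p ^ (Nat.card H).factorization p := hcard
        rw [this, h1, pow_one]
    rw [hzc]
    have h2 := card_sylow_modEq_one p H
    rw [P.card_eq_index_normalizer] at h2
    exact h2


theorem k3 {H : Type*} [Group H] [Finite H] (hc : Nat.card H = 60)
    (h5 : ∀ z : H, (orderOf z).Prime →
      5 ≤ (Subgroup.normalizer (Subgroup.zpowers z : Set H)).index)
    (u : H) (hu : orderOf u = 3) :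
    (Subgroup.normalizer (Subgroup.zpowers u : Set H)).index = 10 := by
  haveI : Fact (Nat.Prime 3) := ⟨by norm_num⟩
  have hcu : Nat.card (Subgroup.zpowers u) = 3 := by rw [Nat.card_zpowers, hu]
  have hidx : (Subgroup.zpowers u).index = 20 := by
    have := (Subgroup.zpowers u).card_mul_index
    rw [hcu, hc] at this
    omega
  have hpg : IsPGroup 3 (Subgroup.zpowers u) := IsPGroup.of_card (n := 1) (by rw [hcu]; norm_num)
  let P : Sylow 3 H := hpg.toSylow (by rw [hidx]; norm_num)
  set N := Subgroup.normalizer (Subgroup.zpowers u : Set H) with hNdef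
  have h1 : 5 ≤ N.index := h5 u (by rw [hu]; norm_num)
  have h2 : N.index ∣ 20 := by
    rw [← hidx]; exact Subgroup.index_dvd_of_le Subgroup.le_normalizer
  have h3 := card_sylow_modEq_one 3 H
  rw [P.card_eq_index_normalizer] at h3
  have h3' : N.index ≡ 1 [MOD 3] := h3
  have h4 : N.index ≤ 20 := Nat.le_of_dvd (by norm_num) h2
  generalize N.index = n at *
  unfold Nat.ModEq at h3'
  interval_cases n <;> omega

theorem ord_le {H : Type*} [Group H] [Finite H] (hc : Nat.card H = 60)
    (h5 : ∀ z : H, (orderOf z).Prime →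
      orderOf z + 1 ≤ (Subgroup.normalizer (Subgroup.zpowers z : Set H)).index)
    (a : H) (k : ℕ) (hk : orderOf a = 5 * k) (hk0 : k ≠ 0) : orderOf a ≤ 10 := by
  have ho : orderOf (a ^ k) = 5 := by
    rw [orderOf_pow' a hk0, hk, Nat.gcd_eq_right (Dvd.intro_left 5 rfl)]
    exact Nat.mul_div_cancel _ (Nat.pos_of_ne_zero hk0)
  have h1 := h5 (a ^ k) (by rw [ho]; norm_num)
  rw [ho] at h1
  set N := Subgroup.normalizer (Subgroup.zpowers (a ^ k) : Set H) with hN
  have hle : Subgroup.zpowers a ≤ N := by
    rw [Subgroup.zpowers_le, hN, Subgroup.mem_normalizer_iff]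
    intro h
    have hcm : Commute a (a ^ k) := (Commute.refl a).pow_right k
    have key : ∀ g : H, Commute g (a ^ k) → ∀ n : ℤ, g * (a ^ k) ^ n * g⁻¹ = (a ^ k) ^ n := by
      intro g hg n
      rw [(hg.zpow_right n).eq, mul_assoc, mul_inv_cancel, mul_one]
    constructor
    · rintro ⟨n, rfl⟩
      exact ⟨n, (key _ hcm n).symm⟩
    · rintro ⟨n, hn⟩
      refine ⟨n, ?_⟩
      have h2 : h = a⁻¹ * (a ^ k) ^ n * a⁻¹⁻¹ := by
        simp only at hn
        rw [hn]; group
      simp only
      rw [h2, key _ hcm.inv_left n]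
  have h2 := Nat.card_le_card_of_injective _ (Subgroup.inclusion_injective hle)
  rw [Nat.card_zpowers] at h2
  have h3 := N.card_mul_index
  rw [hc] at h3
  have h4 : Nat.card N * 6 ≤ 60 := by
    calc Nat.card N * 6 ≤ Nat.card N * N.index := Nat.mul_le_mul_left _ h1
      _ = 60 := h3
  omega

theorem job {H : Type*} [Group H] [Finite H] (hc : Nat.card H = 60) (hN : NoN H)
    (h5 : ∀ z : H, (orderOf z).Prime →
      5 ≤ (Subgroup.normalizer (Subgroup.zpowers z : Set H)).index ∧
      orderOf z + 1 ≤ (Subgroup.normalizer (Subgroup.zpowers z : Set H)).index) :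
    32 ≤ cyc H := by
  have hpf : (Nat.card H).primeFactors = {2, 3, 5} := by rw [hc]; decide +kernel
  obtain ⟨z2, hz2, hd2, -⟩ := job2 (H := H) 2 (by norm_num) (by rw [hc]; norm_num)
  obtain ⟨z3, hz3, -, -⟩ := job2 (H := H) 3 (by norm_num) (by rw [hc]; norm_num)
  obtain ⟨z5, hz5, -, -⟩ := job2 (H := H) 5 (by norm_num) (by rw [hc]; norm_num)
  have hodd : ¬ 2 ∣ (Subgroup.normalizer (Subgroup.zpowers z2 : Set H)).index := fun h =>
    Nat.not_dvd_ordCompl Nat.prime_two (n := Nat.card H) (by rw [hc]; norm_num) (h.trans hd2)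
  have h15 : (Subgroup.normalizer (Subgroup.zpowers z2 : Set H)).index ∣ 15 := by
    have h60 : (Subgroup.normalizer (Subgroup.zpowers z2 : Set H)).index ∣ 60 := by
      rw [← hc]; exact Subgroup.index_dvd_card _
    have hcop : Nat.Coprime (Subgroup.normalizer (Subgroup.zpowers z2 : Set H)).index 4 := by
      have : Nat.Coprime (Subgroup.normalizer (Subgroup.zpowers z2 : Set H)).index 2 :=
        ((Nat.Prime.coprime_iff_not_dvd Nat.prime_two).2 hodd).symm
      exact this.pow_right 2
    exact hcop.dvd_of_dvd_mul_left (show _ ∣ 4 * 15 from h60)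
  have e2 := k2 hc hN (fun z hz => (h5 z hz).1) z2 hz2 h15
  have e3 := k3 hc (fun z hz => (h5 z hz).1) z3 hz3
  have hm : ∀ a : H, Nat.totient (orderOf a) ≤ 4 := by
    intro a
    have hd : orderOf a ∣ 60 := by rw [← hc]; exact orderOf_dvd_natCard a
    by_cases h : 5 ∣ orderOf a
    · obtain ⟨k, hk⟩ := h
      have hk0 : k ≠ 0 := by
        rintro rfl
        have := orderOf_pos a
        omega
      have := ord_le hc (fun z hz => (h5 z hz).2) a k hk hk0
      generalize orderOf a = n at *
      interval_cases n <;> first | decide | (exfalso; revert hd; decide)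
    · have h12 : orderOf a ∣ 12 := by
        have : Nat.Coprime (orderOf a) 5 :=
          ((Nat.Prime.coprime_iff_not_dvd (by norm_num)).2 h).symm
        exact this.dvd_of_dvd_mul_left (show _ ∣ 5 * 12 from hd)
      have := Nat.le_of_dvd (by norm_num) h12
      generalize orderOf a = n at *
      interval_cases n <;> first | decide | (exfalso; revert h12; decide)
  have key := job1 (H := H) 4 hm (fun p => if p = 2 then 15 else if p = 3 then 10 else 0) (by
    intro p hp
    rw [hpf] at hp
    simp only [Finset.mem_insert, Finset.mem_singleton] at hp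
    rcases hp with rfl | rfl | rfl
    · exact ⟨z2, hz2, by rw [e2]; simp⟩
    · exact ⟨z3, hz3, by rw [e3]; simp⟩
    · exact ⟨z5, hz5, by simp⟩)
  rw [hpf, hc] at key
  simp at key
  omega

end Pool.Agent.H34C.J5
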