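import Mathlib

set_option autoImplicit false

namespace Pool.Agent.H34C.J6

open Finset

def L12 : List ℕ := [2, 3, 5, 7, 11, 13, 17, 19, 23, 29, 31, 37]
def L46 : List ℕ := [2, 3, 5, 7, 11, 13, 17, 19, 23, 29, 31, 37, 41, 43, 47, 53, 59, 61, 67, 71, 73, 79, 83, 89, 97, 101, 103, 107, 109, 113, 127, 131, 137, 139, 149, 151, 157, 163, 167, 173, 179, 181, 191, 193, 197, 199]
def T : List (ℕ × ℕ × ℕ) := [(4620, 55, 40), (5460, 65, 48), (6930, 77, 60), (7140, 68, 32), (7980, 76, 36), (8190, 65, 48), (8580, 65, 48), (9240, 77, 60), (9660, 92, 44), (10710, 85, 64), (10920, 91, 72), (11220, 85, 64), (11550, 77, 60), (11970, 95, 72), (12012, 91, 72), (12180, 87, 56), (12540, 95, 72), (12870, 99, 60), (13020, 93, 60), (13260, 85, 64), (13650, 91, 72), (13860, 99, 60), (14280, 119, 96), (14490, 115, 88), (14820, 95, 72), (15180, 115, 88), (15540, 111, 72), (15708, 119, 96), (15960, 95, 72), (16170, 77, 60), (16380, 117, 72), (60060, 231, 120)]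
def Tn : List ℕ := T.map Prod.fst

def cc (l : List ℕ) (n : ℕ) : ℕ := (l.filter (fun p => n % p == 0)).length
def FF (n : ℕ) : Finset ℕ := (L12.filter (fun p => n % p == 0)).toFinset

theorem card_le {l : List ℕ} {n : ℕ} (h : ∀ p, p.Prime → p ∣ n → p ∈ l) :
    n.primeFactors.card ≤ cc l n := by
  refine (Finset.card_le_card (t := (l.filter (fun p => n % p == 0)).toFinset) ?_).trans
    (List.toFinset_card_le _)
  intro p hp
  rw [List.mem_toFinset, List.mem_filter]
  have h1 := Nat.prime_of_mem_primeFactors hp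
  have h2 := Nat.dvd_of_mem_primeFactors hp
  refine ⟨h p h1 h2, ?_⟩
  simp [Nat.mod_eq_zero_of_dvd h2]

theorem p210 : ∀ p < 210, p.Prime → p ∈ L46 := by decide +kernel
theorem p40 : ∀ p < 40, p.Prime → p ∈ L12 := by decide +kernel
theorem l12 : ∀ p ∈ L12, p.Prime := by
  intro p hp
  simp only [L12, List.mem_cons, List.not_mem_nil, or_false] at hp
  rcases hp with rfl | rfl | rfl | rfl | rfl | rfl | rfl | rfl | rfl | rfl | rfl | rfl <;> norm_num
theorem scan0 : ∀ s < 210, s = 0 ∨ cc L46 s ≤ 3 := by decide +kernel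

def good (s : ℕ) : Bool :=
  (cc L12 s < 5) || (((s == 2310) || Nat.blt 2520 s) &&
    L12.all (fun p => !(s % p == 0) || !(Nat.blt (p * s) 16384) || Tn.contains (p * s)))

theorem scan1 : ∀ a < 64, ∀ b < 128, (a == 0 && b == 0) || good (128 * a + b) = true := by
  decide +kernel

theorem card4 {s : ℕ} (hs : s ≠ 0) (h : 4 ≤ s.primeFactors.card) : 210 ≤ s := by
  by_contra hcon
  push Not at hcon
  have h1 := card_le (l := L46) (n := s) fun p hp hd =>
    p210 p ((Nat.le_of_dvd (Nat.pos_of_ne_zero hs) hd).trans_lt hcon) hp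
  rcases scan0 s hcon with h2 | h2
  · exact hs h2
  · omega

theorem card_mul {p u : ℕ} (hp : p.Prime) (hu : u ≠ 0) :
    (p * u).primeFactors.card ≤ u.primeFactors.card + 1 := by
  rw [Nat.primeFactors_mul hp.ne_zero hu, hp.primeFactors]
  refine (card_union_le _ _).trans ?_
  rw [card_singleton]; omega

theorem small {s : ℕ} (hs0 : s ≠ 0) (hs : s < 8192) (h : 5 ≤ s.primeFactors.card) :
    ∀ p, p.Prime → p ∣ s → p ∈ L12 := by
  intro p hp hd
  obtain ⟨u, rfl⟩ := hd
  have hu : u ≠ 0 := by rintro rfl; simp at hs0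
  have h1 := card_mul hp hu
  have h2 := card4 hu (by omega)
  have h3 : p * 210 ≤ p * u := Nat.mul_le_mul_left _ h2
  exact p40 p (by omega) hp

theorem sc {s : ℕ} (hs0 : s ≠ 0) (hs : s < 8192) (h : 5 ≤ s.primeFactors.card) :
    (s = 2310 ∨ 2520 < s) ∧ ∀ p ∈ L12, p ∣ s → p * s < 16384 → p * s ∈ Tn := by
  have h1 := card_le (small hs0 hs h)
  have h2 := scan1 (s / 128) (by omega) (s % 128) (by omega)
  have h3 : 128 * (s / 128) + s % 128 = s := by omega
  rw [h3] at h2
  have h4 : good s = true := by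
    rw [Bool.or_eq_true, Bool.and_eq_true, beq_iff_eq, beq_iff_eq] at h2
    rcases h2 with h2 | h2
    · exfalso; omega
    · exact of_decide_eq_true h2
  unfold good at h4
  simp only [Bool.or_eq_true, Bool.and_eq_true, decide_eq_true_eq, beq_iff_eq, List.all_eq_true,
    Bool.not_eq_true', List.contains_iff_mem, beq_eq_false_iff_ne, Nat.blt_eq] at h4
  rcases h4 with h4 | ⟨h4, h5⟩
  · omega
  · refine ⟨h4, fun p hp hd hlt => ?_⟩
    rcases h5 p hp with (h6 | h6) | h6
    · exact absurd (Nat.mod_eq_zero_of_dvd hd) h6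
    · exfalso
      rw [← Bool.not_eq_true, Nat.blt_eq] at h6
      exact h6 hlt
    · exact h6

theorem check : ∀ x ∈ T, x.2.1 ∣ x.1 ∧ x.2.1 * x.2.1 ≤ x.1 ∧ Nat.totient x.2.1 = x.2.2 ∧
    x.1 < 65536 ∧ (∀ d < 256, d ∣ x.1 → d * d ≤ x.1 → Nat.totient d ≤ x.2.2) ∧
    x.2.2 * (2 ^ ((FF x.1).card + 2) - 1) < x.1 + (x.2.2 - 1) +
      ∑ p ∈ FF x.1, max 5 (p + 1) * (x.2.2 - (p - 1)) := by
  decide +kernel

theorem fin {n : ℕ} (hn : n ∈ Tn) (hL : ∀ p, p.Prime → p ∣ n → p ∈ L12) (d : ℕ) (hd : d ∣ n)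
    (hdn : d * d ≤ n) (hmax : ∀ e : ℕ, e ∣ n → e * e ≤ n → Nat.totient e ≤ Nat.totient d) :
    Nat.totient d * (2 ^ (n.primeFactors.card + 2) - 1) < n + (Nat.totient d - 1) +
      ∑ p ∈ n.primeFactors, max 5 (p + 1) * (Nat.totient d - (p - 1)) := by
  obtain ⟨⟨a, e, m⟩, hx, rfl⟩ := List.mem_map.1 hn
  obtain ⟨c1, c2, c3, c4, c5, c6⟩ := check _ hx
  simp only at c1 c2 c3 c4 c5 c6 hL hd hdn hmax ⊢
  have hd256 : d < 256 := by
    by_contra hcon
    push Not at hcon
    have : 256 * 256 ≤ d * d := Nat.mul_le_mul hcon hcon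
    omega
  have h1 := c5 d hd256 hd hdn
  have h2 := hmax e c1 c2
  have h3 : Nat.totient d = m := by omega
  have ha : a ≠ 0 := by
    rintro rfl
    have hd0 : d = 0 := by
      by_contra h
      have := Nat.mul_pos (Nat.pos_of_ne_zero h) (Nat.pos_of_ne_zero h)
      omega
    have := hL 101 (by norm_num) (dvd_zero _)
    simp [L12] at this
  have h4 : a.primeFactors = FF a := by
    ext p
    unfold FF
    rw [List.mem_toFinset, List.mem_filter, Nat.mem_primeFactors, beq_iff_eq]
    constructor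
    · rintro ⟨hp, hpa, -⟩
      exact ⟨hL p hp hpa, Nat.mod_eq_zero_of_dvd hpa⟩
    · rintro ⟨hp, hpa⟩
      exact ⟨l12 p hp, Nat.dvd_of_mod_eq_zero hpa, ha⟩
  rw [h3, h4]
  exact c6

theorem job (n : ℕ) (hsq : ¬ Squarefree n) (h5 : 5 ≤ n.primeFactors.card)
    (h6 : n.primeFactors.card ≤ 6) (hlt : n < 4 ^ (n.primeFactors.card + 2))
    (hp : ∀ p ∈ n.primeFactors, p * p ≤ n) (d : ℕ) (hd : d ∣ n) (hdn : d * d ≤ n)
    (hmax : ∀ e : ℕ, e ∣ n → e * e ≤ n → Nat.totient e ≤ Nat.totient d) :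
    Nat.totient d * (2 ^ (n.primeFactors.card + 2) - 1) < n + (Nat.totient d - 1) +
      ∑ p ∈ n.primeFactors, max 5 (p + 1) * (Nat.totient d - (p - 1)) := by
  have hn0 : n ≠ 0 := by
    rintro rfl
    simp at h5
  rw [Nat.squarefree_iff_prime_squarefree] at hsq
  push Not at hsq
  obtain ⟨p, hpp, v, hv⟩ := hsq
  obtain ⟨s, hs⟩ : ∃ s, s = p * v := ⟨_, rfl⟩
  have hns : n = p * s := by rw [hs, hv]; ring
  have hs0 : s ≠ 0 := by rintro rfl; exact hn0 (by rw [hns]; ring)
  have hps : p ∣ s := ⟨v, hs⟩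
  have hpf : n.primeFactors = s.primeFactors := by
    rw [hns, Nat.primeFactors_mul hpp.ne_zero hs0, hpp.primeFactors]
    apply Finset.union_eq_right.2
    rw [Finset.singleton_subset_iff, Nat.mem_primeFactors]
    exact ⟨hpp, hps, hs0⟩
  have hp2 := hpp.two_le
  have h2s : 2 * s ≤ n := by rw [hns]; exact Nat.mul_le_mul_right _ hp2
  have hcase : n.primeFactors.card = 5 ∨ n.primeFactors.card = 6 := by omega
  rcases hcase with hw | hw
  · rw [hw] at hlt
    norm_num at hlt
    have hsm := small hs0 (by omega) (by rw [← hpf]; exact h5)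
    obtain ⟨-, hT⟩ := sc hs0 (by omega) (by rw [← hpf]; exact h5)
    refine fin ?_ ?_ d hd hdn hmax
    · rw [hns]
      exact hT p (hsm p hpp hps) hps (by rw [← hns]; exact hlt)
    · intro q hq hqn
      apply hsm q hq
      have : q ∈ n.primeFactors := Nat.mem_primeFactors.2 ⟨hq, hqn, hn0⟩
      rw [hpf] at this
      exact Nat.dvd_of_mem_primeFactors this
  · rw [hw] at hlt
    norm_num at hlt
    obtain ⟨q, hq, hq13⟩ : ∃ q ∈ s.primeFactors, 13 ≤ q := by
      by_contra hcon
      push Not at hcon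
      have hsub : s.primeFactors ⊆ {2, 3, 5, 7, 11} := by
        intro q hq
        have h1 := hcon q hq
        have h2 := Nat.prime_of_mem_primeFactors hq
        interval_cases q <;> first | decide | (exfalso; revert h2; norm_num)
      have h3 := card_le_card hsub
      rw [← hpf, hw] at h3
      revert h3
      decide
    have hqp := Nat.prime_of_mem_primeFactors hq
    obtain ⟨t, rfl⟩ := Nat.dvd_of_mem_primeFactors hq
    have ht0 : t ≠ 0 := by rintro rfl; simp at hs0
    have h13 : 13 * t ≤ q * t := Nat.mul_le_mul_right _ hq13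
    have hct : 5 ≤ t.primeFactors.card := by
      have := card_mul hqp ht0
      rw [← hpf, hw] at this
      omega
    obtain ⟨h2310, -⟩ := sc ht0 (by omega) hct
    have hsm := small ht0 (by omega) hct
    have ht : t = 2310 := by omega
    subst ht
    have hq14 : q < 15 := by omega
    have hq' : q = 13 := by
      have : q = 13 ∨ q = 14 := by omega
      rcases this with h | h
      · exact h
      · exfalso; rw [h] at hqp; revert hqp; norm_num
    subst hq'
    have hp3 : p < 3 := by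
      by_contra hcon
      push Not at hcon
      have : 3 * (13 * 2310) ≤ p * (13 * 2310) := Nat.mul_le_mul_right _ hcon
      omega
    have hp' : p = 2 := by omega
    subst hp'
    refine fin ?_ ?_ d hd hdn hmax
    · rw [hns]; decide +kernel
    · intro r hr hrn
      rw [hns] at hrn
      rcases (Nat.Prime.dvd_mul hr).1 hrn with h | h
      · rw [(Nat.prime_dvd_prime_iff_eq hr (by norm_num)).1 h]; decide
      · rcases (Nat.Prime.dvd_mul hr).1 h with h | h
        · rw [(Nat.prime_dvd_prime_iff_eq hr (by norm_num)).1 h]; decide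
        · exact hsm r hr h

end Pool.Agent.H34C.J6
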