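import Pool.Agent.H34C.Main3
import Pool.Agent.H34C.J1
import Pool.Agent.H34C.J2
import Pool.Agent.H34C.J3
import Pool.Agent.H34C.J4
import Pool.Agent.H34C.J5
import Pool.Agent.H34C.J6

/-!
# Cyclic subgroups and solvability: the remaining orders
-/

set_option autoImplicit false

namespace Pool.Agent.H34C

universe u

open Finset

lemma idx {H : Type*} [Group H] [Finite H] (hN : NoN H) {p v m : ℕ} (hp : p.Prime)
    (hc : Nat.card H = p ^ v * m) (hm : ¬ p ∣ m) (hv : v ≠ 0) :
    ∃ i : ℕ, i ∣ m ∧ 5 ≤ i ∧ p + 1 ≤ i ∧ (v = 1 → i % p = 1 % p) ∧ ∃ z : H, orderOf z = p ∧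
      i ≤ (Subgroup.normalizer (Subgroup.zpowers z : Set H)).index := by
  have hm0 : m ≠ 0 := by
    rintro rfl
    exact hm (dvd_zero p)
  have hf : (Nat.card H).factorization p = v := by
    rw [hc, Nat.factorization_mul (pow_pos hp.pos v).ne' hm0, Finsupp.add_apply,
      hp.factorization_pow, Nat.factorization_eq_zero_of_not_dvd hm]
    simp
  have hd : p ∣ Nat.card H := by
    rw [hc]
    exact (dvd_pow_self p hv).mul_right m
  obtain ⟨z, h1, h2, h3⟩ := J2.job (H := H) p hp hd
  rw [hf, hc, Nat.mul_div_cancel_left _ (pow_pos hp.pos v)] at h2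
  rw [hf] at h3
  have hz1 : z ≠ 1 := by
    rintro rfl
    rw [orderOf_one] at h1
    exact hp.ne_one h1.symm
  have h4 := five_le hN z hz1
  have h5 := succ_le hN z (by rw [h1]; exact hp)
  rw [h1] at h5
  exact ⟨_, h2, h4, h5, h3, z, h1, le_rfl⟩

/-- the counting inequality in our notation -/
lemma count {H : Type*} [Group H] [Finite H] (m : ℕ) (hm : ∀ a : H, Nat.totient (orderOf a) ≤ m)
    (k : ℕ → ℕ) (hk : ∀ p ∈ (Nat.card H).primeFactors, ∃ z : H, orderOf z = p ∧
      k p ≤ (Subgroup.normalizer (Subgroup.zpowers z : Set H)).index) :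
    Nat.card H + (m - 1) + ∑ p ∈ (Nat.card H).primeFactors, k p * (m - (p - 1)) ≤
      m * cyc H := J1.job m hm k hk

lemma card_pf {n : ℕ} (S : Finset ℕ) (hn : n ≠ 0) (h : ∀ p ∈ S, p.Prime ∧ p ∣ n)
    (h2 : ∀ p, p.Prime → p ∣ n → p ∈ S) : n.primeFactors = S := by
  ext p
  rw [Nat.mem_primeFactors]
  exact ⟨fun h3 => h2 p h3.1 h3.2.1, fun h3 => ⟨(h p h3).1, (h p h3).2, hn⟩⟩

lemma pf56 : (56 : ℕ).primeFactors = {2, 7} := by
  rw [show (56 : ℕ) = 2 ^ 3 * 7 by norm_num, Nat.primeFactors_mul (by norm_num) (by norm_num),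
    Nat.primeFactors_prime_pow (by norm_num) Nat.prime_two, Nat.Prime.primeFactors (by norm_num)]
  rfl

lemma pf132 : (132 : ℕ).primeFactors = {2, 3, 11} := by
  rw [show (132 : ℕ) = 2 ^ 2 * (3 * 11) by norm_num,
    Nat.primeFactors_mul (by norm_num) (by norm_num),
    Nat.primeFactors_mul (by norm_num) (by norm_num),
    Nat.primeFactors_prime_pow (by norm_num) Nat.prime_two,
    Nat.Prime.primeFactors (by norm_num), Nat.Prime.primeFactors (by norm_num)]
  rfl

lemma pf306 : (306 : ℕ).primeFactors = {2, 3, 17} := by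
  rw [show (306 : ℕ) = 3 ^ 2 * (2 * 17) by norm_num,
    Nat.primeFactors_mul (by norm_num) (by norm_num),
    Nat.primeFactors_mul (by norm_num) (by norm_num),
    Nat.primeFactors_prime_pow (by norm_num) Nat.prime_three,
    Nat.Prime.primeFactors (by norm_num), Nat.Prime.primeFactors (by norm_num)]
  decide

lemma pf60 : (60 : ℕ).primeFactors = {2, 3, 5} := by
  rw [show (60 : ℕ) = 2 ^ 2 * (3 * 5) by norm_num,
    Nat.primeFactors_mul (by norm_num) (by norm_num),
    Nat.primeFactors_mul (by norm_num) (by norm_num),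
    Nat.primeFactors_prime_pow (by norm_num) Nat.prime_two,
    Nat.Prime.primeFactors (by norm_num), Nat.Prime.primeFactors (by norm_num)]
  rfl

/-- the exceptional orders -/
lemma exc_case {H : Type*} [Group H] [Finite H] (hN : NoN H)
    (h2 : ∀ a : H, orderOf a ^ 2 ≤ Nat.card H) (he : Nat.card H ∈ J3.exc)
    (hc : cyc H < 2 ^ ((Nat.card H).primeFactors.card + 2)) : False := by
  have hno : ∀ p v m : ℕ, p.Prime → Nat.card H = p ^ v * m → ¬ p ∣ m → v ≠ 0 →
      (∀ i, i ≤ m → i ∣ m → 5 ≤ i → p + 1 ≤ i → (v = 1 → i % p = 1 % p) → False) → False := by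
    intro p v m hp hcd hm hv hi
    have hm0 : 0 < m := Nat.pos_of_ne_zero (by rintro rfl; exact hm (dvd_zero p))
    obtain ⟨i, h1, h2, h3, h4, -⟩ := idx hN hp hcd hm hv
    exact hi i (Nat.le_of_dvd hm0 h1) h1 h2 h3 h4
  have hdv : ∀ a : H, orderOf a ∣ Nat.card H := fun a => orderOf_dvd_natCard a
  simp only [J3.exc, List.mem_cons, List.not_mem_nil, or_false] at he
  rcases he with he | he | he | he | he | he | he | he | he | he | he | he | he | he | he | he | he
  · exact hno 3 1 4 (by norm_num) (by rw [he]; norm_num) (by norm_num) one_ne_zero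
      (fun i h1 h2 h3 h4 h5 => by omega)
  · exact hno 3 2 2 (by norm_num) (by rw [he]; norm_num) (by norm_num) two_ne_zero
      (fun i h1 h2 h3 h4 h5 => by omega)
  · exact hno 3 1 8 (by norm_num) (by rw [he]; norm_num) (by norm_num) one_ne_zero
      (fun i h1 h2 h3 h4 h5 => by have h6 := h5 rfl; interval_cases i <;> omega)
  · exact hno 5 1 8 (by norm_num) (by rw [he]; norm_num) (by norm_num) one_ne_zero
      (fun i h1 h2 h3 h4 h5 => by have h6 := h5 rfl; interval_cases i <;> omega)
  · exact hno 5 1 9 (by norm_num) (by rw [he]; norm_num) (by norm_num) one_ne_zero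
      (fun i h1 h2 h3 h4 h5 => by have h6 := h5 rfl; interval_cases i <;> omega)
  · -- 56
    obtain ⟨i, a1, a2, a3, a4, z, hz, hzi⟩ := idx hN (p := 2) (v := 3) (m := 7) Nat.prime_two
      (by rw [he]; norm_num) (by norm_num) (by norm_num)
    obtain ⟨j, b1, b2, b3, b4, y, hy, hyj⟩ := idx hN (p := 7) (v := 1) (m := 8) (by norm_num)
      (by rw [he]; norm_num) (by norm_num) (by norm_num)
    have a5 := Nat.le_of_dvd (by norm_num) a1
    have b5 := Nat.le_of_dvd (by norm_num) b1
    have hi : 7 ≤ i := by interval_cases i <;> omega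
    have hj : 8 ≤ j := b3
    have hcount := count (H := H) 6 (by
      intro a
      have e1 := h2 a
      have e2 := hdv a
      rw [he] at e1 e2
      have e3 : orderOf a ≤ 7 := by nlinarith
      interval_cases (orderOf a) <;> decide) (fun p => if p = 2 then 7 else 8) (by
      intro p hp
      rw [he, pf56] at hp
      simp only [Finset.mem_insert, Finset.mem_singleton] at hp
      rcases hp with rfl | rfl
      · exact ⟨z, hz, by simpa using hi.trans hzi⟩
      · exact ⟨y, hy, by simpa using hj.trans hyj⟩)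
    rw [he, pf56] at hcount hc
    rw [Finset.sum_insert (by norm_num), Finset.sum_singleton] at hcount
    have hcc : ({2, 7} : Finset ℕ).card = 2 := by decide
    rw [hcc] at hc
    norm_num at hcount hc
    omega
  · exact hno 7 1 9 (by norm_num) (by rw [he]; norm_num) (by norm_num) one_ne_zero
      (fun i h1 h2 h3 h4 h5 => by have h6 := h5 rfl; interval_cases i <;> omega)
  · -- 60
    have h60 := J5.job (H := H) he hN (fun z hz => ⟨five_le hN z (by
      rintro rfl
      rw [orderOf_one] at hz
      exact Nat.not_prime_one hz), succ_le hN z hz⟩)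
    have h60' : 32 ≤ cyc H := h60
    rw [he, pf60] at hc
    have hcc : ({2, 3, 5} : Finset ℕ).card = 3 := by decide
    rw [hcc] at hc
    norm_num at hc
    omega
  · exact hno 7 1 12 (by norm_num) (by rw [he]; norm_num) (by norm_num) one_ne_zero
      (fun i h1 h2 h3 h4 h5 => by have h6 := h5 rfl; interval_cases i <;> omega)
  · exact J4.job he hN
  · exact hno 7 1 18 (by norm_num) (by rw [he]; norm_num) (by norm_num) one_ne_zero
      (fun i h1 h2 h3 h4 h5 => by have h6 := h5 rfl; interval_cases i <;> omega)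
  · -- 132
    obtain ⟨i, a1, a2, a3, a4, z, hz, hzi⟩ := idx hN (p := 2) (v := 2) (m := 33) Nat.prime_two
      (by rw [he]; norm_num) (by norm_num) (by norm_num)
    obtain ⟨j, b1, b2, b3, b4, y, hy, hyj⟩ := idx hN (p := 3) (v := 1) (m := 44) (by norm_num)
      (by rw [he]; norm_num) (by norm_num) (by norm_num)
    obtain ⟨l, c1, c2, c3, c4, x, hx, hxl⟩ := idx hN (p := 11) (v := 1) (m := 12) (by norm_num)
      (by rw [he]; norm_num) (by norm_num) (by norm_num)
    have b5 := Nat.le_of_dvd (by norm_num) b1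
    have b6 := b4 rfl
    have hj : 22 ≤ j := by interval_cases j <;> omega
    have hcount := count (H := H) 10 (by
      intro a
      have e1 := h2 a
      have e2 := hdv a
      rw [he] at e1 e2
      have e3 : orderOf a ≤ 11 := by nlinarith
      interval_cases (orderOf a) <;> decide) (fun p => if p = 2 then 5 else if p = 3 then 22 else 12)
      (by
      intro p hp
      rw [he, pf132] at hp
      simp only [Finset.mem_insert, Finset.mem_singleton] at hp
      rcases hp with rfl | rfl | rfl
      · exact ⟨z, hz, by simpa using a2.trans hzi⟩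
      · exact ⟨y, hy, by simpa using hj.trans hyj⟩
      · exact ⟨x, hx, by simpa using c3.trans hxl⟩)
    rw [he, pf132] at hcount hc
    rw [Finset.sum_insert (by decide), Finset.sum_insert (by decide), Finset.sum_singleton]
      at hcount
    have hcc : ({2, 3, 11} : Finset ℕ).card = 3 := by decide
    rw [hcc] at hc
    norm_num at hcount hc
    omega
  · exact hno 7 1 20 (by norm_num) (by rw [he]; norm_num) (by norm_num) one_ne_zero
      (fun i h1 h2 h3 h4 h5 => by have h6 := h5 rfl; interval_cases i <;> omega)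
  · exact hno 11 1 18 (by norm_num) (by rw [he]; norm_num) (by norm_num) one_ne_zero
      (fun i h1 h2 h3 h4 h5 => by have h6 := h5 rfl; interval_cases i <;> omega)
  · exact hno 11 1 20 (by norm_num) (by rw [he]; norm_num) (by norm_num) one_ne_zero
      (fun i h1 h2 h3 h4 h5 => by have h6 := h5 rfl; interval_cases i <;> omega)
  · exact hno 13 1 18 (by norm_num) (by rw [he]; norm_num) (by norm_num) one_ne_zero
      (fun i h1 h2 h3 h4 h5 => by have h6 := h5 rfl; interval_cases i <;> omega)
  · -- 306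
    obtain ⟨i, a1, a2, a3, a4, z, hz, hzi⟩ := idx hN (p := 2) (v := 1) (m := 153) Nat.prime_two
      (by rw [he]; norm_num) (by norm_num) (by norm_num)
    obtain ⟨j, b1, b2, b3, b4, y, hy, hyj⟩ := idx hN (p := 3) (v := 2) (m := 34) (by norm_num)
      (by rw [he]; norm_num) (by norm_num) (by norm_num)
    obtain ⟨l, c1, c2, c3, c4, x, hx, hxl⟩ := idx hN (p := 17) (v := 1) (m := 18) (by norm_num)
      (by rw [he]; norm_num) (by norm_num) (by norm_num)
    have b5 := Nat.le_of_dvd (by norm_num) b1
    have hj : 17 ≤ j := by interval_cases j <;> omega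
    have hcount := count (H := H) 16 (by
      intro a
      have e1 := h2 a
      have e2 := hdv a
      rw [he] at e1 e2
      have e3 : orderOf a ≤ 17 := by nlinarith
      interval_cases (orderOf a) <;> decide) (fun p => if p = 2 then 5 else if p = 3 then 17 else 18)
      (by
      intro p hp
      rw [he, pf306] at hp
      simp only [Finset.mem_insert, Finset.mem_singleton] at hp
      rcases hp with rfl | rfl | rfl
      · exact ⟨z, hz, by simpa using a2.trans hzi⟩
      · exact ⟨y, hy, by simpa using hj.trans hyj⟩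
      · exact ⟨x, hx, by simpa using c3.trans hxl⟩)
    rw [he, pf306] at hcount hc
    rw [Finset.sum_insert (by decide), Finset.sum_insert (by decide), Finset.sum_singleton]
      at hcount
    have hcc : ({2, 3, 17} : Finset ℕ).card = 3 := by decide
    rw [hcc] at hc
    norm_num at hcount hc
    omega

/-- no nontrivial radical-free group has few cyclic subgroups -/
theorem none {H : Type*} [Group H] [Finite H] (hN : NoN H) (hnt : Nontrivial H)
    (hc : cyc H < 2 ^ (npr H + 2)) : False := by
  obtain ⟨h6, hlt⟩ := small hN hc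
  have h2 : ∀ a : H, orderOf a ^ 2 ≤ Nat.card H := sq_le hN (h6.trans (by norm_num))
  unfold npr at hc h6 hlt
  have hn0 : 0 < Nat.card H := Nat.card_pos
  have htop : (⊤ : Subgroup H) ≠ ⊥ := top_ne_bot
  have hsq : ¬ Squarefree (Nat.card H) := by
    intro h
    have h1 := IsZGroup.of_squarefree h
    have h3 : Group.IsSolvable H := inferInstance
    obtain ⟨p, hp, K, hK1, hK2, hK3⟩ := exists_normal_p (⊤ : Subgroup H) htop
    exact hK3 (hN p hp K hK1 hK2)
  have hp : ∀ p ∈ (Nat.card H).primeFactors, p * p ≤ Nat.card H := by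
    intro p hp
    obtain ⟨hp1, hp2, -⟩ := Nat.mem_primeFactors.1 hp
    have := Fact.mk hp1
    obtain ⟨z, hz⟩ := exists_prime_orderOf_dvd_card' p hp2
    have h3 := h2 z
    rw [hz, sq] at h3
    exact h3
  have ht2 : 2 ≤ (Nat.card H).primeFactors.card := by
    by_contra hlt2
    push Not at hlt2
    have h1 : Nat.card H ≠ 1 := by
      intro h
      exact (Finite.one_lt_card (α := H)).ne' h
    obtain ⟨p, hp1, hp2⟩ := Nat.exists_prime_and_dvd h1
    have hpm : p ∈ (Nat.card H).primeFactors := Nat.mem_primeFactors.2 ⟨hp1, hp2, hn0.ne'⟩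
    have h3 : ∀ q, q.Prime → q ∣ Nat.card H → q = p := by
      intro q hq hqd
      exact Finset.card_le_one.1 (by omega) q (Nat.mem_primeFactors.2 ⟨hq, hqd, hn0.ne'⟩) p hpm
    have h4 : Nat.card H = p ^ (Nat.card H).primeFactorsList.length :=
      Nat.eq_prime_pow_of_unique_prime_dvd hn0.ne' (fun {q} hq hqd => h3 q hq hqd)
    have h5 : IsPGroup p (⊤ : Subgroup H) := by
      refine IsPGroup.of_card (n := (Nat.card H).primeFactorsList.length) ?_
      rw [Subgroup.card_top]
      exact h4
    exact htop (hN p hp1 ⊤ inferInstance h5)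
  have hk : ∀ p ∈ (Nat.card H).primeFactors, ∃ z : H, orderOf z = p ∧
      max 5 (p + 1) ≤ (Subgroup.normalizer (Subgroup.zpowers z : Set H)).index := by
    intro p hp'
    obtain ⟨hp1, hp2, -⟩ := Nat.mem_primeFactors.1 hp'
    have := Fact.mk hp1
    obtain ⟨z, hz⟩ := exists_prime_orderOf_dvd_card' p hp2
    have hz1 : z ≠ 1 := by
      rintro rfl
      rw [orderOf_one] at hz
      exact hp1.ne_one hz.symm
    have h3 := succ_le hN z (by rw [hz]; exact hp1)
    rw [hz] at h3
    exact ⟨z, hz, max_le (five_le hN z hz1) h3⟩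
  have hdv : ∀ a : H, orderOf a ∣ Nat.card H := fun a => orderOf_dvd_natCard a
  have hsqa : ∀ a : H, orderOf a * orderOf a ≤ Nat.card H := fun a => by
    have := h2 a
    rwa [sq] at this
  set n := Nat.card H with hn
  set t := n.primeFactors.card with ht
  have hpow : 1 ≤ 2 ^ (t + 2) := Nat.one_le_two_pow
  rcases le_or_gt t 4 with h4 | h4
  · rcases J3.num n hn0 hsq ht2 h4 hlt hp with h | h
    · exact exc_case hN h2 h hc
    · have hn4 : n < 4096 := by
        calc n < 4 ^ (t + 2) := hlt
          _ ≤ 4 ^ (4 + 2) := Nat.pow_le_pow_right (by norm_num) (by omega)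
          _ = 4096 := by norm_num
      have h1 := count (H := H) (J3.mxf n)
        (fun a => J3.le_mxf hn0 hn4 (hdv a) (hsqa a)) (fun p => max 5 (p + 1)) hk
      have h3 : J3.mxf n * cyc H ≤ J3.mxf n * (2 ^ (t + 2) - 1) :=
        Nat.mul_le_mul_left _ (by omega)
      exact absurd (h1.trans h3) (not_le.2 h)
  · obtain ⟨d, hd, hmax⟩ := Finset.exists_max_image (n.divisors.filter (fun d => d * d ≤ n))
      Nat.totient ⟨1, Finset.mem_filter.2 ⟨Nat.one_mem_divisors.2 hn0.ne', by omega⟩⟩
    obtain ⟨hd1, hd2⟩ := Finset.mem_filter.1 hd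
    have hmax' : ∀ e : ℕ, e ∣ n → e * e ≤ n → Nat.totient e ≤ Nat.totient d := fun e he1 he2 =>
      hmax e (Finset.mem_filter.2 ⟨Nat.mem_divisors.2 ⟨he1, hn0.ne'⟩, he2⟩)
    have h := J6.job n hsq h4 h6 hlt hp d (Nat.dvd_of_mem_divisors hd1) hd2 hmax'
    have h1 := count (H := H) (Nat.totient d)
      (fun a => hmax' _ (hdv a) (hsqa a)) (fun p => max 5 (p + 1)) hk
    have h3 : Nat.totient d * cyc H ≤ Nat.totient d * (2 ^ (t + 2) - 1) :=
      Nat.mul_le_mul_left _ (by omega)
    exact absurd (h1.trans h3) (not_le.2 h)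

/-- **Solvability criterion** -/
theorem criterion (G : Type u) [Group G] [Finite G] (hc : cyc G < 2 ^ (npr G + 2)) :
    Group.IsSolvable G := by
  obtain ⟨R, hRn, hRs, hRf, hc', -, -⟩ := main2 G hc
  rcases subsingleton_or_nontrivial (G ⧸ R) with hs | hnt
  · have h0 : Nat.card (G ⧸ R) = 1 := Nat.card_eq_one_iff_unique.2 ⟨hs, ⟨1⟩⟩
    have h1 : R = ⊤ := Subgroup.index_eq_one.1 h0
    subst h1
    exact Group.isSolvable_of_surjective (f := (⊤ : Subgroup G).subtype)
      (fun x => ⟨⟨x, Subgroup.mem_top x⟩, rfl⟩)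
  · exact (none (NoN_of_radFree hRf) hnt hc').elim

end Pool.Agent.H34C
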