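import Mathlib

/-!
# Cyclic subgroups and solvability

A finite group with few cyclic subgroups is solvable-by-small.
-/

set_option autoImplicit false

namespace Pool.Agent.H34C

universe u

open Finset
open scoped commutatorElement



/-- the number of cyclic subgroups -/
noncomputable def cyc (G : Type*) [Group G] : ℕ := Nat.card {C : Subgroup G // IsCyclic C}

/-- the number of primes dividing the order -/
noncomputable def npr (G : Type*) [Group G] : ℕ := (Nat.card G).primeFactors.card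

/-- no nontrivial normal subgroup of prime power order -/
def NoN (G : Type*) [Group G] : Prop :=
  ∀ p : ℕ, p.Prime → ∀ N : Subgroup G, N.Normal → IsPGroup p N → N = ⊥

/-! ### quotients by normal `p`-subgroups -/

lemma cyc_pos_surj {G H : Type u} [Group G] [Group H] [Finite G] [Finite H] (f : G →* H)
    (hf : Function.Surjective f) : cyc H ≤ cyc G := by
  classical
  have key : ∀ C : {C : Subgroup H // IsCyclic C}, ∃ D : {D : Subgroup G // IsCyclic D},
      D.1.map f = C.1 := by
    rintro ⟨C, hC⟩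
    obtain ⟨c, hc⟩ := Subgroup.isCyclic_iff_exists_zpowers_eq_top C |>.1 hC
    obtain ⟨x, hx⟩ := hf c
    refine ⟨⟨Subgroup.zpowers x, inferInstance⟩, ?_⟩
    simp only [MonoidHom.map_zpowers, hx, hc]
  choose D hD using key
  unfold cyc
  refine Nat.card_le_card_of_injective D ?_
  intro C C' h
  apply Subtype.ext
  rw [← hD C, ← hD C', h]

lemma cyc_two_mul {G H : Type u} [Group G] [Group H] [Finite G] [Finite H] (f : G →* H)
    (hf : Function.Surjective f) {p : ℕ} (hp : p.Prime) (hk : IsPGroup p f.ker)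
    (hne : f.ker ≠ ⊥) (hpH : ¬ p ∣ Nat.card H) : 2 * cyc H ≤ cyc G := by
  classical
  obtain ⟨z, hz, hz1⟩ : ∃ z : G, z ∈ f.ker ∧ z ≠ 1 := by
    by_contra h
    push Not at h
    exact hne ((Subgroup.eq_bot_iff_forall _).2 h)
  have key : ∀ C : {C : Subgroup H // IsCyclic C}, ∃ x : G, (Subgroup.zpowers x).map f = C.1 ∧
      (orderOf x).Coprime p := by
    rintro ⟨C, hC⟩
    obtain ⟨c, hc⟩ := Subgroup.isCyclic_iff_exists_zpowers_eq_top C |>.1 hC
    obtain ⟨x, hx⟩ := hf c
    obtain ⟨e, m, hm, hem⟩ := Nat.exists_eq_pow_mul_and_not_dvd (orderOf_pos x).ne' p hp.ne_one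
    refine ⟨x ^ p ^ e, ?_, ?_⟩
    · rw [MonoidHom.map_zpowers, map_pow, hx]
      have hcop : (p ^ e).Coprime (orderOf c) := by
        refine Nat.Coprime.pow_left _ ((Nat.Prime.coprime_iff_not_dvd hp).2 fun h => hpH ?_)
        exact h.trans (orderOf_dvd_natCard c)
      obtain ⟨k, hk⟩ := exists_pow_eq_self_of_coprime hcop
      have h1 : Subgroup.zpowers (c ^ p ^ e) = Subgroup.zpowers c := by
        apply le_antisymm
        · rw [Subgroup.zpowers_le]
          exact Subgroup.pow_mem _ (Subgroup.mem_zpowers c) _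
        · rw [Subgroup.zpowers_le]
          have h2 : (c ^ p ^ e) ^ k ∈ Subgroup.zpowers (c ^ p ^ e) :=
            Subgroup.pow_mem _ (Subgroup.mem_zpowers (c ^ p ^ e)) k
          rwa [hk] at h2
      rw [h1, hc]
    · rw [orderOf_pow, hem, Nat.gcd_eq_right (Dvd.intro _ rfl), Nat.mul_div_cancel_left _
        (pow_pos hp.pos e)]
      exact ((Nat.Prime.coprime_iff_not_dvd hp).2 hm).symm
  choose x hx hxp using key
  have hzx : ∀ C, z ∉ Subgroup.zpowers (x C) := by
    intro C h
    have h1 : orderOf z ∣ orderOf (x C) := by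
      have h2 := orderOf_dvd_natCard (⟨z, h⟩ : Subgroup.zpowers (x C))
      rwa [Nat.card_zpowers, Subgroup.orderOf_mk] at h2
    obtain ⟨k, hk'⟩ := hk ⟨z, hz⟩
    have h3 : orderOf z ∣ p ^ k := by
      apply orderOf_dvd_of_pow_eq_one
      have := congrArg Subtype.val hk'
      simpa using this
    have h4 : (orderOf z).Coprime p := Nat.Coprime.coprime_dvd_left h1 (hxp C)
    have h5 : orderOf z = 1 := by
      have := Nat.Coprime.coprime_dvd_right h3 (Nat.Coprime.pow_right k h4)
      exact (Nat.coprime_self _).1 this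
    exact hz1 (orderOf_eq_one_iff.1 h5)
  have hxz : ∀ C : {C : Subgroup H // IsCyclic C},
      (Subgroup.zpowers (x C * z)).map f = C.1 := by
    intro C
    rw [MonoidHom.map_zpowers, map_mul, (MonoidHom.mem_ker).1 hz, mul_one, ← MonoidHom.map_zpowers,
      hx C]
  let D : {C : Subgroup H // IsCyclic C} × Bool → {D : Subgroup G // IsCyclic D} := fun q =>
    if q.2 then ⟨Subgroup.zpowers (x q.1), inferInstance⟩
    else ⟨Subgroup.zpowers (x q.1 * z), inferInstance⟩
  have hDm : ∀ q, (D q).1.map f = q.1.1 := by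
    rintro ⟨C, b⟩
    cases b
    · exact hxz C
    · exact hx C
  have hD : Function.Injective D := by
    rintro ⟨C, b⟩ ⟨C', b'⟩ h
    have h1 : C = C' := Subtype.ext (by rw [← hDm (C, b), ← hDm (C', b'), h])
    subst h1
    have h2 : ∀ (_ : (D (C, true)) = D (C, false)), False := by
      intro h3
      have h4 : Subgroup.zpowers (x C) = Subgroup.zpowers (x C * z) := congrArg Subtype.val h3
      have h5 : x C * z ∈ Subgroup.zpowers (x C) := by
        rw [h4]
        exact Subgroup.mem_zpowers _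
      exact hzx C ((Subgroup.mul_mem_cancel_left _ (Subgroup.mem_zpowers _)).1 h5)
    cases b <;> cases b'
    · rfl
    · exact (h2 h.symm).elim
    · exact (h2 h).elim
    · rfl
  have h := Nat.card_le_card_of_injective D hD
  rw [Nat.card_prod, Nat.card_eq_fintype_card (α := Bool), Fintype.card_bool, mul_comm] at h
  exact h

/-- a nontrivial solvable normal subgroup gives a normal `p`-subgroup -/
lemma exists_normal_p {H : Type*} [Group H] [Finite H] (M : Subgroup H) [hM : M.Normal]
    [Group.IsSolvable M] (hne : M ≠ ⊥) : ∃ p : ℕ, p.Prime ∧ ∃ N : Subgroup H, N.Normal ∧ IsPGroup p N ∧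
      N ≠ ⊥ := by
  classical
  have hex : ∃ n, derivedSeries M n = ⊥ := (Group.isSolvable_def M).1 inferInstance
  have hn := Nat.find_spec hex
  have hn0 : Nat.find hex ≠ 0 := by
    intro h0
    rw [h0, derivedSeries_zero] at hn
    apply hne
    rw [Subgroup.eq_bot_iff_forall]
    intro x hx
    have h1 : (⟨x, hx⟩ : M) ∈ (⊤ : Subgroup M) := Subgroup.mem_top _
    rw [hn, Subgroup.mem_bot] at h1
    exact congrArg Subtype.val h1
  obtain ⟨m, hm⟩ := Nat.exists_eq_succ_of_ne_zero hn0
  have hD : derivedSeries M m ≠ ⊥ := Nat.find_min hex (by omega)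
  rw [hm, Nat.succ_eq_add_one, derivedSeries_succ] at hn
  set D := (derivedSeries M m).map M.subtype with hDdef
  have hDn : D.Normal := ConjAct.normal_of_characteristic_of_normal
  have hDc : ∀ x ∈ D, ∀ y ∈ D, x * y = y * x := by
    rintro _ ⟨x, hx, rfl⟩ _ ⟨y, hy, rfl⟩
    have h1 : ⁅x, y⁆ ∈ ⁅derivedSeries M m, derivedSeries M m⁆ :=
      Subgroup.commutator_mem_commutator hx hy
    rw [hn, Subgroup.mem_bot, commutatorElement_eq_one_iff_mul_comm] at h1
    exact congrArg Subtype.val h1
  have hDne : D ≠ ⊥ := by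
    intro h
    apply hD
    rw [hDdef, Subgroup.map_eq_bot_iff_of_injective _ M.subtype_injective] at h
    exact h
  have hcard : Nat.card D ≠ 1 := fun h => hDne (Subgroup.card_eq_one.1 h)
  obtain ⟨p, hp, hpd⟩ := Nat.exists_prime_and_dvd hcard
  have := Fact.mk hp
  obtain ⟨x, hx⟩ := exists_prime_orderOf_dvd_card' p hpd
  refine ⟨p, hp, ⟨⟨⟨{x | x ∈ D ∧ x ^ p = 1}, ?_⟩, ?_⟩, ?_⟩, ⟨?_⟩, ?_, ?_⟩
  · rintro a b ⟨ha, ha'⟩ ⟨hb, hb'⟩
    refine ⟨D.mul_mem ha hb, ?_⟩
    rw [(show Commute a b from hDc a ha b hb).mul_pow, ha', hb', mul_one]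
  · exact ⟨D.one_mem, one_pow p⟩
  · rintro a ⟨ha, ha'⟩
    exact ⟨D.inv_mem ha, by rw [inv_pow, ha', inv_one]⟩
  · rintro a ⟨ha, ha'⟩ g
    refine ⟨hDn.conj_mem a ha g, ?_⟩
    rw [conj_pow, ha', mul_one, mul_inv_cancel]
  · rintro ⟨a, ha, ha'⟩
    refine ⟨1, Subtype.ext ?_⟩
    simpa using ha'
  · intro h
    have h1 : (x : H) ∈ (⊥ : Subgroup H) := by
      rw [← h]
      refine ⟨x.2, ?_⟩
      have := pow_orderOf_eq_one x
      rw [hx] at this
      exact congrArg Subtype.val this
    rw [Subgroup.mem_bot] at h1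
    have h2 : x = 1 := Subtype.ext h1
    rw [h2, orderOf_one] at hx
    exact hp.ne_one hx.symm

lemma solv4 : Group.IsSolvable (Equiv.Perm (Fin 4)) := by
  classical
  have h4 : Nat.card (Fin 4) = 4 := by simp
  have hV : Group.IsSolvable (alternatingGroup.kleinFour (Fin 4)) := by
    have := alternatingGroup.kleinFour_isKleinFour (α := Fin 4) h4
    have := IsKleinFour.isMulCommutative (G := alternatingGroup.kleinFour (Fin 4))
    apply Group.isSolvable_of_comm
    intro a b
    exact mul_comm' a b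
  have hA : Group.IsSolvable (alternatingGroup (Fin 4)) := by
    refine Group.isSolvable_of_ker_le_range (alternatingGroup.kleinFour (Fin 4)).subtype
      (Abelianization.of (G := alternatingGroup (Fin 4))) ?_
    rw [Abelianization.ker_of, ← alternatingGroup.kleinFour_eq_commutator h4,
      Subgroup.range_subtype]
  refine Group.isSolvable_of_ker_le_range (alternatingGroup (Fin 4)).subtype
    (Equiv.Perm.sign (α := Fin 4)) ?_
  rw [Subgroup.range_subtype]
  exact le_of_eq (alternatingGroup_eq_sign_ker (α := Fin 4)).symm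

lemma solvPerm {X : Type*} [Finite X] (h : Nat.card X ≤ 4) : Group.IsSolvable (Equiv.Perm X) := by
  classical
  have e : ∃ f : X → Fin 4, Function.Injective f := by
    have e1 := Finite.equivFin X
    exact ⟨fun x => Fin.castLE h (e1 x), fun x y hxy => e1.injective (Fin.castLE_injective h hxy)⟩
  obtain ⟨f, hf⟩ := e
  have := solv4
  exact Group.isSolvable_of_isSolvable_injective
    (Equiv.Perm.viaEmbeddingHom_injective (⟨f, hf⟩ : X ↪ Fin 4))

lemma comm_z {H : Type*} [Group H] (z x y : H) (hx : x ∈ Subgroup.normalizer (Subgroup.zpowers z : Set H))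
    (hy : y ∈ Subgroup.normalizer (Subgroup.zpowers z : Set H)) : Commute ⁅x, y⁆ z := by
  have key : ∀ x y : H, x ∈ Subgroup.normalizer (Subgroup.zpowers z : Set H) →
      y ∈ Subgroup.normalizer (Subgroup.zpowers z : Set H) → Commute ⁅x⁻¹, y⁻¹⁆ z := by
    intro x y hx hy
    obtain ⟨a, ha⟩ := (Subgroup.mem_normalizer_iff.1 hx z).1 (Subgroup.mem_zpowers z)
    obtain ⟨b, hb⟩ := (Subgroup.mem_normalizer_iff.1 hy z).1 (Subgroup.mem_zpowers z)
    simp only at ha hb
    have h1 : x * (y * z * y⁻¹) * x⁻¹ = y * (x * z * x⁻¹) * y⁻¹ := by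
      rw [← ha, ← hb, ← conj_zpow, ← conj_zpow, ← ha, ← hb, ← zpow_mul, ← zpow_mul, mul_comm]
    unfold Commute SemiconjBy
    rw [commutatorElement_def, inv_inv, inv_inv]
    calc x⁻¹ * y⁻¹ * x * y * z = x⁻¹ * y⁻¹ * (x * (y * z * y⁻¹) * x⁻¹) * x * y := by group
      _ = x⁻¹ * y⁻¹ * (y * (x * z * x⁻¹) * y⁻¹) * x * y := by rw [h1]
      _ = z * (x⁻¹ * y⁻¹ * x * y) := by group
  have := key x⁻¹ y⁻¹ (inv_mem hx) (inv_mem hy)
  rwa [inv_inv, inv_inv] at this

/-- commutators of the core of the normaliser centralise the normal closure -/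
lemma comm_core {H : Type*} [Group H] (z x y m : H)
    (hx : x ∈ (Subgroup.normalizer (Subgroup.zpowers z : Set H)).normalCore)
    (hy : y ∈ (Subgroup.normalizer (Subgroup.zpowers z : Set H)).normalCore)
    (hm : m ∈ Subgroup.normalClosure ({z} : Set H)) : Commute ⁅x, y⁆ m := by
  have h : Subgroup.normalClosure ({z} : Set H) ≤ Subgroup.centralizer {⁅x, y⁆} := by
    rw [Subgroup.normalClosure, Subgroup.closure_le]
    intro w hw
    rw [Group.mem_conjugatesOfSet_iff] at hw
    obtain ⟨a, ha, haw⟩ := hw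
    rw [Set.mem_singleton_iff] at ha
    subst ha
    obtain ⟨h, rfl⟩ := isConj_iff.1 haw
    rw [SetLike.mem_coe, Subgroup.mem_centralizer_singleton_iff]
    have hx' := hx h⁻¹
    have hy' := hy h⁻¹
    have h1 := comm_z a (h⁻¹ * x * (h⁻¹)⁻¹) (h⁻¹ * y * (h⁻¹)⁻¹) hx' hy'
    have h2 : ⁅h⁻¹ * x * (h⁻¹)⁻¹, h⁻¹ * y * (h⁻¹)⁻¹⁆ = h⁻¹ * ⁅x, y⁆ * h := by
      simp only [commutatorElement_def]
      group
    rw [h2] at h1
    unfold Commute SemiconjBy at h1
    calc h * a * h⁻¹ * ⁅x, y⁆ = h * (a * (h⁻¹ * ⁅x, y⁆ * h)) * h⁻¹ := by group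
      _ = h * (h⁻¹ * ⁅x, y⁆ * h * a) * h⁻¹ := by rw [h1]
      _ = ⁅x, y⁆ * (h * a * h⁻¹) := by group
  have h1 := h hm
  rw [Subgroup.mem_centralizer_singleton_iff] at h1
  exact h1.symm

lemma solv_inf {H : Type*} [Group H] (z : H) : Group.IsSolvable
    (Subgroup.normalClosure ({z} : Set H) ⊓
      (Subgroup.normalizer (Subgroup.zpowers z : Set H)).normalCore : Subgroup H) := by
  set L := (Subgroup.normalClosure ({z} : Set H) ⊓
      (Subgroup.normalizer (Subgroup.zpowers z : Set H)).normalCore : Subgroup H) with hL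
  have hle : commutator L ≤ Subgroup.centralizer (Set.univ : Set L) := by
    rw [commutator_def, Subgroup.commutator_le]
    intro a _ b _
    rw [Subgroup.mem_centralizer_iff]
    intro m _
    have h1 := comm_core z a b m a.2.2 b.2.2 m.2.1
    exact Subtype.ext h1.symm
  have hc : Group.IsSolvable (commutator L) := by
    apply Group.isSolvable_of_comm
    intro a b
    have h1 := (Subgroup.mem_centralizer_iff.1 (hle a.2)) b (Set.mem_univ _)
    exact Subtype.ext h1.symm
  refine Group.isSolvable_of_ker_le_range (commutator L).subtype (Abelianization.of (G := L)) ?_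
  rw [Abelianization.ker_of, Subgroup.range_subtype]

/-- the normaliser of a subgroup of prime order has index at least `5` -/
lemma five_le {H : Type*} [Group H] [Finite H] (hH : NoN H) (z : H) (hz : z ≠ 1) :
    5 ≤ (Subgroup.normalizer (Subgroup.zpowers z : Set H)).index := by
  classical
  by_contra hlt
  push Not at hlt
  set N := Subgroup.normalizer (Subgroup.zpowers z : Set H) with hN
  have hs := solv_inf z
  rw [← hN] at hs
  have hP : Group.IsSolvable (Equiv.Perm (H ⧸ N)) := by
    apply solvPerm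
    have h1 : Nat.card (H ⧸ N) = N.index := rfl
    omega
  have hM : Group.IsSolvable (Subgroup.normalClosure ({z} : Set H)) := by
    refine Group.isSolvable_of_ker_le_range
      (Subgroup.inclusion (inf_le_left : Subgroup.normalClosure ({z} : Set H) ⊓ N.normalCore ≤ _))
      ((MulAction.toPermHom H (H ⧸ N)).comp (Subgroup.normalClosure ({z} : Set H)).subtype) ?_
    intro m hm
    have h1 : (m : H) ∈ N.normalCore := by
      rw [Subgroup.normalCore_eq_ker]
      exact hm
    exact ⟨⟨m, m.2, h1⟩, rfl⟩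
  have hne : Subgroup.normalClosure ({z} : Set H) ≠ ⊥ := by
    intro h
    have h1 : z ∈ Subgroup.normalClosure ({z} : Set H) :=
      Subgroup.subset_normalClosure (Set.mem_singleton z)
    rw [h, Subgroup.mem_bot] at h1
    exact hz h1
  obtain ⟨p, hp, K, hK1, hK2, hK3⟩ := exists_normal_p (Subgroup.normalClosure ({z} : Set H)) hne
  exact hK3 (hH p hp K hK1 hK2)




/-- generator of the subgroup of order `p` of `zpowers a` -/
noncomputable def zp {H : Type*} [Group H] (a : H) (p : ℕ) : H := a ^ (orderOf a / p)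

lemma ord_conj {H : Type*} [Group H] (a g : H) : orderOf (g * a * g⁻¹) = orderOf a := by
  have h := orderOf_injective (MulAut.conj g).toMonoidHom (MulAut.conj g).injective a
  simpa using h

lemma mem_norm {H : Type*} [Group H] [Finite H] (a g : H) (p : ℕ) (hp : p.Prime)
    (hd : p ∣ Nat.card ((Subgroup.zpowers a) ⊓ (Subgroup.zpowers (g * a * g⁻¹)) : Subgroup H)) :
    g ∈ Subgroup.normalizer (Subgroup.zpowers (zp a p) : Set H) := by
  classical
  have := Fact.mk hp
  obtain ⟨u, hu⟩ := exists_prime_orderOf_dvd_card' p hd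
  have key : ∀ b w : H, w ∈ Subgroup.zpowers b → orderOf w = p →
      Subgroup.zpowers w = Subgroup.zpowers (zp b p) := by
    intro b w hw hwp
    have hb : 0 < orderOf b := orderOf_pos b
    obtain ⟨j, rfl⟩ := Subgroup.mem_zpowers_iff.1 hw
    have hpb : p ∣ orderOf b := by
      rw [← hwp]
      exact orderOf_dvd_of_mem_zpowers hw
    obtain ⟨m, hm⟩ := hpb
    have hm0 : 0 < m := Nat.pos_of_ne_zero (by rintro rfl; omega)
    have hz : zp b p = b ^ m := by
      unfold zp
      rw [hm, Nat.mul_div_cancel_left _ hp.pos]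
    have h1 : (b ^ j) ^ p = 1 := by
      rw [← hwp]
      exact pow_orderOf_eq_one _
    have h2 : ((orderOf b : ℕ) : ℤ) ∣ j * p := by
      rw [orderOf_dvd_iff_zpow_eq_one, zpow_mul, zpow_natCast]
      exact h1
    rw [hm] at h2
    push_cast at h2
    rw [mul_comm j] at h2
    have h3 : (m : ℤ) ∣ j := Int.dvd_of_mul_dvd_mul_left (by exact_mod_cast hp.ne_zero) h2
    obtain ⟨i, rfl⟩ := h3
    have hmem : b ^ ((m : ℤ) * i) ∈ Subgroup.zpowers (zp b p) := by
      rw [hz, zpow_mul, zpow_natCast]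
      exact Subgroup.zpow_mem _ (Subgroup.mem_zpowers _) _
    apply Subgroup.eq_of_le_of_card_ge
    · rwa [Subgroup.zpowers_le]
    · rw [Nat.card_zpowers, Nat.card_zpowers, hwp, hz, orderOf_pow, hm,
        Nat.gcd_eq_right (Dvd.intro_left _ rfl), Nat.mul_div_cancel _ hm0]
  have hu1 : (u : H) ∈ Subgroup.zpowers a := u.2.1
  have hu2 : (u : H) ∈ Subgroup.zpowers (g * a * g⁻¹) := u.2.2
  have huo : orderOf (u : H) = p := by
    rw [Subgroup.orderOf_coe]
    exact hu
  have e1 := key a u hu1 huo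
  have e2 := key _ u hu2 huo
  have e3 : zp (g * a * g⁻¹) p = g * zp a p * g⁻¹ := by
    unfold zp
    rw [conj_pow, ord_conj]
  rw [Subgroup.mem_normalizer_iff_map_conj_eq]
  have e4 : (Subgroup.zpowers (zp a p)).map (MulAut.conj g).toMonoidHom =
      Subgroup.zpowers (g * zp a p * g⁻¹) := by
    rw [MonoidHom.map_zpowers]
    rfl
  have e5 : Subgroup.zpowers (g * zp a p * g⁻¹) = Subgroup.zpowers (zp a p) := by
    rw [← e3, ← e2, e1]
  exact e4.trans e5

lemma card_sq_le {H : Type*} [Group H] [Finite H] (a g : H) :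
    orderOf a ^ 2 ≤ Nat.card H *
      Nat.card ((Subgroup.zpowers a) ⊓ (Subgroup.zpowers (g * a * g⁻¹)) : Subgroup H) := by
  have h := Subgroup.index_inf_le (H := Subgroup.zpowers a)
    (K := Subgroup.zpowers (g * a * g⁻¹))
  set B := ((Subgroup.zpowers a) ⊓ (Subgroup.zpowers (g * a * g⁻¹)) : Subgroup H) with hB
  have h1 : Nat.card (Subgroup.zpowers a) * (Subgroup.zpowers a).index = Nat.card H :=
    Subgroup.card_mul_index _
  have h2 : Nat.card (Subgroup.zpowers (g * a * g⁻¹)) * (Subgroup.zpowers (g * a * g⁻¹)).index =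
      Nat.card H := Subgroup.card_mul_index _
  have h3 : Nat.card B * B.index = Nat.card H := Subgroup.card_mul_index _
  rw [Nat.card_zpowers] at h1 h2
  have ho : orderOf (g * a * g⁻¹) = orderOf a := ord_conj a g
  rw [ho] at h2
  have hpos : 0 < Nat.card H := Nat.card_pos
  have h4 : orderOf a ^ 2 * Nat.card H ≤ Nat.card H * Nat.card B * Nat.card H := by
    calc orderOf a ^ 2 * Nat.card H = orderOf a ^ 2 * (Nat.card B * B.index) := by rw [h3]
      _ ≤ orderOf a ^ 2 * (Nat.card B * ((Subgroup.zpowers a).index *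
          (Subgroup.zpowers (g * a * g⁻¹)).index)) := by gcongr
      _ = (orderOf a * (Subgroup.zpowers a).index) *
          (orderOf a * (Subgroup.zpowers (g * a * g⁻¹)).index) * Nat.card B := by ring
      _ = Nat.card H * Nat.card B * Nat.card H := by rw [h1, h2]; ring
  exact Nat.le_of_mul_le_mul_right h4 hpos

open Classical in
/-- the order of a cyclic subgroup -/
lemma pow_nine {H : Type*} [Group H] [Finite H]
    (h5 : ∀ z : H, z ≠ 1 → 5 ≤ (Subgroup.normalizer (Subgroup.zpowers z : Set H)).index) (a : H) :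
    orderOf a ^ 9 ≤ Nat.card H ^ 5 := by
  have := Fintype.ofFinite H
  set n := orderOf a with hn
  have hn0 : 0 < n := orderOf_pos a
  set h := Nat.card H with hh
  have hpos : 0 < h := Nat.card_pos
  let Np : ℕ → Subgroup H := fun p => Subgroup.normalizer (Subgroup.zpowers (zp a p) : Set H)
  have hz1 : ∀ p ∈ n.primeFactors, zp a p ≠ 1 := by
    intro p hp h1
    obtain ⟨hp1, hp2, hp3⟩ := Nat.mem_primeFactors.1 hp
    have h2 : orderOf (zp a p) = p := orderOf_pow_orderOf_div hn0.ne' hp2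
    rw [h1, orderOf_one] at h2
    exact hp1.ne_one h2.symm
  have hcardN : ∀ p ∈ n.primeFactors, 5 * Nat.card (Np p) ≤ h := by
    intro p hp
    have h1 := h5 _ (hz1 p hp)
    have h2 : Nat.card (Np p) * (Np p).index = h := Subgroup.card_mul_index _
    calc 5 * Nat.card (Np p) ≤ (Np p).index * Nat.card (Np p) := Nat.mul_le_mul_right _ h1
      _ = h := by rw [mul_comm, h2]
  -- bound for each conjugate
  have hg : ∀ g : H, n ^ 2 ≤ h * ∏ p ∈ n.primeFactors,
      (if g ∈ Np p then p ^ n.factorization p else 1) := by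
    intro g
    refine (card_sq_le a g).trans (Nat.mul_le_mul_left _ ?_)
    set B := ((Subgroup.zpowers a) ⊓ (Subgroup.zpowers (g * a * g⁻¹)) : Subgroup H) with hB
    have hBn : Nat.card B ∣ n := by
      have h1 := Subgroup.card_dvd_of_le (inf_le_left : B ≤ Subgroup.zpowers a)
      rwa [Nat.card_zpowers] at h1
    have hB0 : Nat.card B ≠ 0 := Nat.card_pos.ne'
    have hfac : Nat.card B = ∏ p ∈ n.primeFactors, p ^ (Nat.card B).factorization p := by
      conv_lhs => rw [← Nat.prod_factorization_pow_eq_self hB0]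
      rw [Finsupp.prod, Nat.support_factorization]
      refine Finset.prod_subset (Nat.primeFactors_mono hBn hn0.ne') fun p _ hp => ?_
      have : (Nat.card B).factorization p = 0 := by
        rw [← Finsupp.notMem_support_iff, Nat.support_factorization]
        exact hp
      rw [this, pow_zero]
    rw [hfac]
    refine Finset.prod_le_prod' fun p hp => ?_
    have hp' := Nat.prime_of_mem_primeFactors hp
    by_cases hpB : p ∣ Nat.card B
    · rw [if_pos (mem_norm a g p hp' hpB)]
      exact Nat.pow_le_pow_right hp'.pos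
        ((Nat.factorization_le_iff_dvd hB0 hn0.ne').2 hBn p)
    · rw [Nat.factorization_eq_zero_of_not_dvd hpB, pow_zero]
      split_ifs
      · exact Nat.one_le_pow _ _ hp'.pos
      · exact le_rfl
  -- multiply
  have h1 : ∏ _g : H, n ^ 2 ≤ ∏ g : H, (h * ∏ p ∈ n.primeFactors,
      (if g ∈ Np p then p ^ n.factorization p else 1)) :=
    Finset.prod_le_prod' fun g _ => hg g
  have hcu : (Finset.univ : Finset H).card = h := by
    rw [hh, Nat.card_eq_fintype_card, Finset.card_univ]
  rw [Finset.prod_const, Finset.prod_mul_distrib, Finset.prod_const, hcu, Finset.prod_comm] at h1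
  have h2 : (∏ p ∈ n.primeFactors, ∏ g : H, (if g ∈ Np p then p ^ n.factorization p else 1)) ^ 5 ≤
      n ^ h := by
    have h3 : n ^ h = ∏ p ∈ n.primeFactors, (p ^ n.factorization p) ^ h := by
      rw [Finset.prod_pow]
      congr 1
      conv_lhs => rw [← Nat.prod_factorization_pow_eq_self hn0.ne']
      rfl
    rw [h3, ← Finset.prod_pow]
    refine Finset.prod_le_prod' fun p hp => ?_
    have hp' := Nat.prime_of_mem_primeFactors hp
    rw [Finset.prod_ite, Finset.prod_const, Finset.prod_const_one, mul_one, ← pow_mul]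
    refine Nat.pow_le_pow_right (pow_pos hp'.pos _) ?_
    have h4 : (Finset.univ.filter (fun g => g ∈ Np p)).card = Nat.card (Np p) := by
      rw [Nat.card_eq_fintype_card, Fintype.card_subtype]
    rw [h4, mul_comm]
    exact hcardN p hp
  set P := ∏ p ∈ n.primeFactors, ∏ g : H, (if g ∈ Np p then p ^ n.factorization p else 1) with hP
  have h5' : ((n ^ 2) ^ h) ^ 5 ≤ (h ^ h * P) ^ 5 := Nat.pow_le_pow_left h1 5
  have h6 : (n ^ 9) ^ h * n ^ h ≤ (h ^ 5) ^ h * n ^ h := by
    calc (n ^ 9) ^ h * n ^ h = ((n ^ 2) ^ h) ^ 5 := by ring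
      _ ≤ (h ^ h * P) ^ 5 := h5'
      _ = (h ^ 5) ^ h * P ^ 5 := by ring
      _ ≤ (h ^ 5) ^ h * n ^ h := Nat.mul_le_mul_left _ h2
  have h7 : (n ^ 9) ^ h ≤ (h ^ 5) ^ h := Nat.le_of_mul_le_mul_right h6 (pow_pos hn0 h)
  exact (Nat.pow_le_pow_iff_left hpos.ne').1 h7

open Classical in
lemma card_le_cyc {H : Type*} [Group H] [Finite H] (m : ℕ) (hm : ∀ a : H, orderOf a ≤ m) :
    Nat.card H ≤ cyc H * m := by
  have := Fintype.ofFinite H
  have := Fintype.ofFinite {C : Subgroup H // IsCyclic C}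
  let f : H → {C : Subgroup H // IsCyclic C} := fun a => ⟨Subgroup.zpowers a, inferInstance⟩
  have h1 := Finset.card_le_mul_card_image (f := f) (Finset.univ : Finset H) m (by
    intro C hC
    obtain ⟨a, -, rfl⟩ := Finset.mem_image.1 hC
    have h2 : (Finset.univ.filter (fun x => f x = f a)).card ≤
        Nat.card (Subgroup.zpowers a) := by
      have h4 : Nat.card (Subgroup.zpowers a) =
          (Finset.univ.filter (fun x => x ∈ Subgroup.zpowers a)).card := by
        rw [Nat.card_eq_fintype_card, Fintype.card_subtype]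
      rw [h4]
      refine Finset.card_le_card fun x hx => ?_
      rw [Finset.mem_filter] at hx ⊢
      refine ⟨hx.1, ?_⟩
      have h5 : Subgroup.zpowers x = Subgroup.zpowers a := congrArg Subtype.val hx.2
      rw [← h5]
      exact Subgroup.mem_zpowers x
    rw [Nat.card_zpowers] at h2
    exact h2.trans (hm a))
  have h3 : (Finset.image f Finset.univ).card ≤ cyc H := by
    unfold cyc
    rw [Nat.card_eq_fintype_card]
    exact Finset.card_le_univ _
  rw [Nat.card_eq_fintype_card, ← Finset.card_univ]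
  calc _ ≤ m * (Finset.image f Finset.univ).card := h1
    _ ≤ m * cyc H := Nat.mul_le_mul_left _ h3
    _ = cyc H * m := mul_comm _ _

lemma four_nine {H : Type*} [Group H] [Finite H] (h9 : ∀ a : H, orderOf a ^ 9 ≤ Nat.card H ^ 5) :
    Nat.card H ^ 4 ≤ cyc H ^ 9 := by
  obtain ⟨a, ha⟩ := Finite.exists_max (fun a : H => orderOf a)
  have h1 := card_le_cyc (orderOf a) ha
  have h2 : Nat.card H ^ 4 * Nat.card H ^ 5 ≤ cyc H ^ 9 * Nat.card H ^ 5 := by
    calc Nat.card H ^ 4 * Nat.card H ^ 5 = Nat.card H ^ 9 := by ring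
      _ ≤ (cyc H * orderOf a) ^ 9 := Nat.pow_le_pow_left h1 9
      _ = cyc H ^ 9 * orderOf a ^ 9 := by ring
      _ ≤ cyc H ^ 9 * Nat.card H ^ 5 := Nat.mul_le_mul_left _ (h9 a)
  exact Nat.le_of_mul_le_mul_right h2 (pow_pos Nat.card_pos 5)

lemma prod_primes (S : Finset ℕ) (hS : ∀ p ∈ S, p.Prime) (h8 : 8 ≤ S.card) :
    2 ^ (9 * S.card + 18) ≤ ∏ p ∈ S, p ^ 4 := by
  set T : Finset ℕ := {2, 3, 5, 7, 11, 13, 17, 19} with hT
  let f : ℕ → ℚ := fun p => (p : ℚ) ^ 4 / 2 ^ 9
  have hTc : T.card = 8 := by rw [hT]; rfl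
  have hbig : ∀ p ∈ S \ T, (546 : ℚ) ≤ f p := by
    intro p hp
    obtain ⟨h1, h2⟩ := Finset.mem_sdiff.1 hp
    have hp' := hS p h1
    have h3 : 23 ≤ p := by
      by_contra hlt
      push Not at hlt
      apply h2
      rw [hT]
      interval_cases p <;> first | decide | (exfalso; revert hp'; decide)
    have h4 : (23 : ℚ) ≤ p := by exact_mod_cast h3
    show (546 : ℚ) ≤ (p : ℚ) ^ 4 / 2 ^ 9
    have h5 : (23 : ℚ) ^ 4 ≤ (p : ℚ) ^ 4 := pow_le_pow_left₀ (by norm_num) h4 4
    rw [le_div_iff₀ (by norm_num)]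
    linarith [show (546 : ℚ) * 2 ^ 9 ≤ 23 ^ 4 by norm_num]
  have hsm : ∀ p ∈ T \ S, f p ≤ 546 := by
    intro p hp
    have h1 := (Finset.mem_sdiff.1 hp).1
    rw [hT] at h1
    show (p : ℚ) ^ 4 / 2 ^ 9 ≤ 546
    simp only [Finset.mem_insert, Finset.mem_singleton] at h1
    rcases h1 with rfl | rfl | rfl | rfl | rfl | rfl | rfl | rfl <;> norm_num
  have hf0 : ∀ p, 0 ≤ f p := fun p => by positivity
  have hcard : (T \ S).card ≤ (S \ T).card := by
    have h1 := Finset.card_sdiff_add_card_inter T S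
    have h2 := Finset.card_sdiff_add_card_inter S T
    rw [Finset.inter_comm] at h1
    omega
  have e1 : ∏ p ∈ T, f p ≤ ∏ p ∈ S, f p := by
    rw [← Finset.prod_inter_mul_prod_sdiff T S f, ← Finset.prod_inter_mul_prod_sdiff S T f,
      Finset.inter_comm T S]
    refine mul_le_mul_of_nonneg_left ?_ (Finset.prod_nonneg fun p _ => hf0 p)
    calc ∏ p ∈ T \ S, f p ≤ ∏ _p ∈ T \ S, (546 : ℚ) :=
          Finset.prod_le_prod (fun p _ => hf0 p) hsm
      _ = 546 ^ (T \ S).card := by rw [Finset.prod_const]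
      _ ≤ 546 ^ (S \ T).card := pow_le_pow_right₀ (by norm_num) hcard
      _ = ∏ _p ∈ S \ T, (546 : ℚ) := by rw [Finset.prod_const]
      _ ≤ _ := Finset.prod_le_prod (fun _ _ => by norm_num) hbig
  have e2 : (2 : ℚ) ^ 18 ≤ ∏ p ∈ T, f p := by
    rw [hT]
    simp only [f]
    norm_num [Finset.prod_insert]
  have e3 : ∏ p ∈ S, f p = (∏ p ∈ S, (p : ℚ) ^ 4) / 2 ^ (9 * S.card) := by
    simp only [f]
    rw [Finset.prod_div_distrib, Finset.prod_const, ← pow_mul]
  have e4 : (2 : ℚ) ^ (9 * S.card + 18) ≤ ∏ p ∈ S, (p : ℚ) ^ 4 := by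
    have h1 := e2.trans e1
    rw [e3, le_div_iff₀ (by positivity)] at h1
    rw [pow_add, mul_comm]
    exact h1
  exact_mod_cast e4

lemma final_num (h c : ℕ) (hh : h ≠ 0) (h1 : h ^ 4 ≤ c ^ 9)
    (h2 : c < 2 ^ (h.primeFactors.card + 2)) :
    h ^ 4 < 2 ^ (9 * (h.primeFactors.card + 2)) ∧ h.primeFactors.card ≤ 7 ∧ h < 1250000 := by
  set t := h.primeFactors.card with ht
  have h3 : h ^ 4 < 2 ^ (9 * (t + 2)) := by
    calc h ^ 4 ≤ c ^ 9 := h1
      _ < (2 ^ (t + 2)) ^ 9 := Nat.pow_lt_pow_left h2 (by norm_num)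
      _ = 2 ^ (9 * (t + 2)) := by rw [← pow_mul, mul_comm]
  have h4 : t ≤ 7 := by
    by_contra hlt
    push Not at hlt
    have h5 := prod_primes h.primeFactors (fun p hp => Nat.prime_of_mem_primeFactors hp) hlt
    have h6 : ∏ p ∈ h.primeFactors, p ^ 4 ≤ h ^ 4 := by
      rw [Finset.prod_pow]
      exact Nat.pow_le_pow_left (Nat.le_of_dvd (Nat.pos_of_ne_zero hh)
        (Nat.prod_primeFactors_dvd h)) 4
    have h7 : 9 * (t + 2) = 9 * t + 18 := by ring
    rw [h7] at h3
    rw [← ht] at h5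
    omega
  refine ⟨h3, h4, ?_⟩
  by_contra hlt
  push Not at hlt
  have h5 : (1250000 : ℕ) ^ 4 ≤ h ^ 4 := Nat.pow_le_pow_left hlt 4
  have h6 : (2 : ℕ) ^ (9 * (t + 2)) ≤ 2 ^ 81 := Nat.pow_le_pow_right (by norm_num) (by omega)
  have h7 : (2 : ℕ) ^ 81 < 1250000 ^ 4 := by norm_num
  omega

lemma step {G : Type u} [Group G] [Finite G] {p : ℕ} (hp : p.Prime) (N : Subgroup G) [N.Normal]
    (hN : IsPGroup p N) (hne : N ≠ ⊥) (h : cyc G < 2 ^ (npr G + 2)) :
    cyc (G ⧸ N) < 2 ^ (npr (G ⧸ N) + 2) := by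
  have := Fact.mk hp
  obtain ⟨k, hk⟩ := hN.exists_card_eq
  have hcard : Nat.card G = Nat.card (G ⧸ N) * p ^ k := by
    rw [← hk]
    exact Subgroup.card_eq_card_quotient_mul_card_subgroup N
  have hq0 : Nat.card (G ⧸ N) ≠ 0 := Nat.card_pos.ne'
  have hpk0 : p ^ k ≠ 0 := (pow_pos hp.pos k).ne'
  have hpf : (Nat.card G).primeFactors = (Nat.card (G ⧸ N)).primeFactors ∪ (p ^ k).primeFactors := by
    rw [hcard, Nat.primeFactors_mul hq0 hpk0]
  have hk0 : (p ^ k).primeFactors ⊆ {p} := by
    rcases Nat.eq_zero_or_pos k with h0 | h0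
    · rw [h0, pow_zero, Nat.primeFactors_one]
      exact Finset.empty_subset _
    · rw [Nat.primeFactors_prime_pow h0.ne' hp]
  by_cases hd : p ∣ Nat.card (G ⧸ N)
  · have h1 : npr G = npr (G ⧸ N) := by
      unfold npr
      rw [hpf, Finset.union_eq_left.2]
      refine hk0.trans ?_
      rw [Finset.singleton_subset_iff]
      exact Nat.mem_primeFactors.2 ⟨hp, hd, hq0⟩
    rw [← h1]
    exact (cyc_pos_surj (QuotientGroup.mk' N) (QuotientGroup.mk'_surjective N)).trans_lt h
  · have h1 : npr G ≤ npr (G ⧸ N) + 1 := by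
      unfold npr
      rw [hpf]
      refine (Finset.card_union_le _ _).trans (Nat.add_le_add_left ?_ _)
      exact (Finset.card_le_card hk0).trans (by simp)
    have h2 := cyc_two_mul (QuotientGroup.mk' N) (QuotientGroup.mk'_surjective N) hp
      (by rw [QuotientGroup.ker_mk']; exact hN) (by rw [QuotientGroup.ker_mk']; exact hne) hd
    have h3 : 2 ^ (npr G + 2) ≤ 2 ^ (npr (G ⧸ N) + 1 + 2) :=
      Nat.pow_le_pow_right (by norm_num) (by omega)
    have h4 : 2 ^ (npr (G ⧸ N) + 1 + 2) = 2 * 2 ^ (npr (G ⧸ N) + 2) := by ring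
    omega

theorem reduce : ∀ n : ℕ, ∀ (G : Type u) [Group G] [Finite G], Nat.card G = n →
    cyc G < 2 ^ (npr G + 2) → ∃ (H : Type u) (_ : Group H) (_ : Finite H) (f : G →* H),
      Function.Surjective f ∧ Group.IsSolvable f.ker ∧ NoN H ∧ cyc H < 2 ^ (npr H + 2) := by
  intro n
  induction n using Nat.strong_induction_on with
  | _ n ih =>
    intro G _ _ hn h
    by_cases hG : NoN G
    · refine ⟨G, inferInstance, inferInstance, MonoidHom.id G, Function.surjective_id, ?_, hG, h⟩
      have h1 : (MonoidHom.id G).ker = ⊥ := (MonoidHom.ker_eq_bot_iff _).2 Function.injective_id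
      rw [h1]
      infer_instance
    · unfold NoN at hG
      push Not at hG
      obtain ⟨p, hp, N, hN, hNp, hne⟩ := hG
      have := Fact.mk hp
      have h1 := step hp N hNp hne h
      have hlt : Nat.card (G ⧸ N) < n := by
        rw [← hn, Subgroup.card_eq_card_quotient_mul_card_subgroup N]
        have h2 : 1 < Nat.card N := (Subgroup.one_lt_card_iff_ne_bot N).2 hne
        have h3 : 0 < Nat.card (G ⧸ N) := Nat.card_pos
        nlinarith
      obtain ⟨H, _, _, f, hf, hfs, hH, hc⟩ := ih _ hlt (G ⧸ N) rfl h1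
      refine ⟨H, inferInstance, inferInstance, f.comp (QuotientGroup.mk' N),
        hf.comp (QuotientGroup.mk'_surjective N), ?_, hH, hc⟩
      have hNs : Group.IsSolvable N := by
        have := hNp.isNilpotent
        infer_instance
      set K := (f.comp (QuotientGroup.mk' N)).ker with hK
      have hle : N ≤ K := by
        intro x hx
        have h5 : QuotientGroup.mk' N x = 1 := by
          rw [← MonoidHom.mem_ker, QuotientGroup.ker_mk']
          exact hx
        rw [hK, MonoidHom.mem_ker, MonoidHom.comp_apply, h5, map_one]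
      refine Group.isSolvable_of_ker_le_range (Subgroup.inclusion hle)
        (((QuotientGroup.mk' N).comp K.subtype).codRestrict f.ker (fun x => x.2)) ?_
      intro x hx
      rw [MonoidHom.mem_ker] at hx
      have h2 : QuotientGroup.mk' N (x : G) = 1 := congrArg Subtype.val hx
      have h3 : (x : G) ∈ N := by
        rw [← QuotientGroup.ker_mk' N, MonoidHom.mem_ker]
        exact h2
      exact ⟨⟨x, h3⟩, rfl⟩


/-- the normaliser of a subgroup of prime order `p` has index at least `p + 1` -/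
lemma succ_le {H : Type*} [Group H] [Finite H] (hH : NoN H) (z : H) (hz : (orderOf z).Prime) :
    orderOf z + 1 ≤ (Subgroup.normalizer (Subgroup.zpowers z : Set H)).index := by
  classical
  by_contra hlt
  push Not at hlt
  have hz1 : z ≠ 1 := by
    rintro rfl
    rw [orderOf_one] at hz
    exact Nat.not_prime_one hz
  set N := Subgroup.normalizer (Subgroup.zpowers z : Set H) with hN
  have hfact := Fact.mk hz
  have hpg : IsPGroup (orderOf z) (Subgroup.zpowers z) :=
    IsPGroup.of_card (n := 1) (by rw [Nat.card_zpowers, pow_one])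
  have hmod := hpg.card_modEq_card_fixedPoints (H ⧸ N)
  have hle : Nat.card (MulAction.fixedPoints (Subgroup.zpowers z) (H ⧸ N)) ≤ Nat.card (H ⧸ N) :=
    Finite.card_subtype_le _
  have hidx : Nat.card (H ⧸ N) = N.index := rfl
  have hzN : Subgroup.zpowers z ≤ N := Subgroup.le_normalizer
  have hfix1 : ((1 : H) : H ⧸ N) ∈ MulAction.fixedPoints (Subgroup.zpowers z) (H ⧸ N) := by
    intro g
    show (((g : H) * 1 : H) : H ⧸ N) = ((1 : H) : H ⧸ N)
    rw [mul_one, eq_comm, QuotientGroup.eq]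
    simpa using hzN g.2
  have hpos : 0 < Nat.card (MulAction.fixedPoints (Subgroup.zpowers z) (H ⧸ N)) := by
    have : Nonempty (MulAction.fixedPoints (Subgroup.zpowers z) (H ⧸ N)) := ⟨⟨_, hfix1⟩⟩
    exact Nat.card_pos
  have heq : Nat.card (MulAction.fixedPoints (Subgroup.zpowers z) (H ⧸ N)) =
      Nat.card (H ⧸ N) := by
    have h1 := (Nat.modEq_iff_dvd' hle).1 hmod.symm
    rcases Nat.eq_zero_or_pos (Nat.card (H ⧸ N) -
      Nat.card (MulAction.fixedPoints (Subgroup.zpowers z) (H ⧸ N))) with h2 | h2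
    · omega
    · have h3 := Nat.le_of_dvd h2 h1
      omega
  have hall : MulAction.fixedPoints (Subgroup.zpowers z) (H ⧸ N) = Set.univ := by
    apply Set.eq_of_subset_of_ncard_le (Set.subset_univ _) _ (Set.toFinite _)
    rw [Set.ncard_univ, ← heq, Nat.card_coe_set_eq]
  have hcore : z ∈ N.normalCore := by
    rw [Subgroup.normalCore_eq_ker, MonoidHom.mem_ker]
    ext x
    have h1 : x ∈ MulAction.fixedPoints (Subgroup.zpowers z) (H ⧸ N) := by
      rw [hall]
      exact Set.mem_univ x
    exact h1 ⟨z, Subgroup.mem_zpowers z⟩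
  have hMle : Subgroup.normalClosure ({z} : Set H) ≤ N.normalCore :=
    Subgroup.normalClosure_le_normal (Set.singleton_subset_iff.2 hcore)
  have hs := solv_inf z
  rw [← hN, inf_eq_left.2 hMle] at hs
  have hne : Subgroup.normalClosure ({z} : Set H) ≠ ⊥ := by
    intro h
    have h1 : z ∈ Subgroup.normalClosure ({z} : Set H) :=
      Subgroup.subset_normalClosure (Set.mem_singleton z)
    rw [h, Subgroup.mem_bot] at h1
    exact hz1 h1
  obtain ⟨p, hp, K, hK1, hK2, hK3⟩ := exists_normal_p (Subgroup.normalClosure ({z} : Set H)) hne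
  exact hK3 (hH p hp K hK1 hK2)

/-- weights of the primes -/
def ex (p : ℕ) : ℕ := if p = 2 ∨ p = 3 then 14 else if p = 5 then 10 else if p = 7 then 5 else 0

lemma sum_ex (S : Finset ℕ) : ∑ p ∈ S, (10 + ex p) ≤ 10 * S.card + 43 := by
  have h1 : ∑ p ∈ S, ex p ≤ ∑ p ∈ ({2, 3, 5, 7} : Finset ℕ), ex p := by
    have h2 : ∑ p ∈ S.filter (fun p => ex p ≠ 0), ex p = ∑ p ∈ S, ex p :=
      Finset.sum_filter_of_ne fun p _ hp => hp
    rw [← h2]
    refine Finset.sum_le_sum_of_subset fun p hp => ?_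
    have h3 := (Finset.mem_filter.1 hp).2
    unfold ex at h3
    simp only [Finset.mem_insert, Finset.mem_singleton]
    split_ifs at h3 with h4 h5 h6
    · tauto
    · tauto
    · tauto
    · exact absurd rfl h3
  have h4 : ∑ p ∈ ({2, 3, 5, 7} : Finset ℕ), ex p = 43 := by decide
  rw [Finset.sum_add_distrib, Finset.sum_const, smul_eq_mul]
  omega

lemma ex_bound {p k : ℕ} (hp : p.Prime) (h5 : 5 ≤ k) (h1 : p + 1 ≤ k) : 120 ≤ (10 + ex p) * k := by
  unfold ex
  split_ifs with h2 h3 h4
  · omega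
  · omega
  · omega
  · have h6 : 11 ≤ p := by
      by_contra hlt
      push Not at hlt
      interval_cases p <;> first | omega | (revert hp; decide)
    omega

open Classical in
/-- the order of a cyclic subgroup, few primes -/
lemma sq_le {H : Type*} [Group H] [Finite H] (hH : NoN H)
    (h7 : (Nat.card H).primeFactors.card ≤ 7) (a : H) : orderOf a ^ 2 ≤ Nat.card H := by
  have := Fintype.ofFinite H
  set n := orderOf a with hn
  have hn0 : 0 < n := orderOf_pos a
  set h := Nat.card H with hh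
  have hpos : 0 < h := Nat.card_pos
  have hnh : n ∣ h := orderOf_dvd_natCard a
  let Np : ℕ → Subgroup H := fun p => Subgroup.normalizer (Subgroup.zpowers (zp a p) : Set H)
  have hcardN : ∀ p ∈ n.primeFactors, 120 * Nat.card (Np p) ≤ (10 + ex p) * h := by
    intro p hp
    obtain ⟨hp1, hp2, hp3⟩ := Nat.mem_primeFactors.1 hp
    have ho : orderOf (zp a p) = p := orderOf_pow_orderOf_div hn0.ne' hp2
    have hz1 : zp a p ≠ 1 := by
      intro h1
      rw [h1, orderOf_one] at ho
      exact hp1.ne_one ho.symm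
    have h1 := five_le hH _ hz1
    have h2 := succ_le hH (zp a p) (by rw [ho]; exact hp1)
    rw [ho] at h2
    have h3 := ex_bound hp1 h1 h2
    have h4 : Nat.card (Np p) * (Np p).index = h := Subgroup.card_mul_index _
    calc 120 * Nat.card (Np p) ≤ ((10 + ex p) * (Np p).index) * Nat.card (Np p) :=
          Nat.mul_le_mul_right _ h3
      _ = (10 + ex p) * (Nat.card (Np p) * (Np p).index) := by ring
      _ = (10 + ex p) * h := by rw [h4]
  have hcu : (Finset.univ : Finset H).card = h := by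
    rw [hh, Nat.card_eq_fintype_card, Finset.card_univ]
  obtain ⟨g, hg⟩ : ∃ g : H, ∀ p ∈ n.primeFactors, g ∉ Np p := by
    by_contra hcon
    push Not at hcon
    have h1 : (Finset.univ : Finset H) ⊆
        n.primeFactors.biUnion (fun p => Finset.univ.filter (fun g => g ∈ Np p)) := by
      intro g _
      obtain ⟨p, hp, hgp⟩ := hcon g
      exact Finset.mem_biUnion.2 ⟨p, hp, Finset.mem_filter.2 ⟨Finset.mem_univ _, hgp⟩⟩
    have h2 := (Finset.card_le_card h1).trans Finset.card_biUnion_le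
    have h3 : ∀ p, (Finset.univ.filter (fun g => g ∈ Np p)).card = Nat.card (Np p) := by
      intro p
      rw [Nat.card_eq_fintype_card, Fintype.card_subtype]
    simp only [h3] at h2
    rw [hcu] at h2
    have h4 : 120 * h ≤ (∑ p ∈ n.primeFactors, (10 + ex p)) * h := by
      calc 120 * h ≤ 120 * ∑ p ∈ n.primeFactors, Nat.card (Np p) := Nat.mul_le_mul_left _ h2
        _ = ∑ p ∈ n.primeFactors, 120 * Nat.card (Np p) := Finset.mul_sum _ _ _
        _ ≤ ∑ p ∈ n.primeFactors, (10 + ex p) * h := Finset.sum_le_sum hcardN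
        _ = _ := (Finset.sum_mul _ _ _).symm
    have h5 := Nat.le_of_mul_le_mul_right h4 hpos
    have h6 := sum_ex n.primeFactors
    have h8 : n.primeFactors.card ≤ h.primeFactors.card :=
      Finset.card_le_card (Nat.primeFactors_mono hnh hpos.ne')
    omega
  have hle := card_sq_le a g
  have hB : Nat.card ((Subgroup.zpowers a) ⊓ (Subgroup.zpowers (g * a * g⁻¹)) : Subgroup H) = 1 := by
    by_contra hne
    obtain ⟨p, hp, hpd⟩ := Nat.exists_prime_and_dvd hne
    have h1 : Nat.card ((Subgroup.zpowers a) ⊓ (Subgroup.zpowers (g * a * g⁻¹)) : Subgroup H) ∣ n := by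
      have h2 := Subgroup.card_dvd_of_le
        (inf_le_left : (Subgroup.zpowers a) ⊓ (Subgroup.zpowers (g * a * g⁻¹)) ≤ Subgroup.zpowers a)
      rwa [Nat.card_zpowers] at h2
    exact hg p (Nat.mem_primeFactors.2 ⟨hp, hpd.trans h1, hn0.ne'⟩) (mem_norm a g p hp hpd)
  rw [hB, mul_one] at hle
  exact hle

lemma card_le_sq {H : Type*} [Group H] [Finite H] (h2 : ∀ a : H, orderOf a ^ 2 ≤ Nat.card H) :
    Nat.card H ≤ cyc H ^ 2 := by
  obtain ⟨a, ha⟩ := Finite.exists_max (fun a : H => orderOf a)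
  have h1 := card_le_cyc (orderOf a) ha
  have h3 : Nat.card H * Nat.card H ≤ cyc H ^ 2 * Nat.card H := by
    calc Nat.card H * Nat.card H = Nat.card H ^ 2 := by ring
      _ ≤ (cyc H * orderOf a) ^ 2 := Nat.pow_le_pow_left h1 2
      _ = cyc H ^ 2 * orderOf a ^ 2 := by ring
      _ ≤ cyc H ^ 2 * Nat.card H := Nat.mul_le_mul_left _ (h2 a)
  exact Nat.le_of_mul_le_mul_right h3 Nat.card_pos

lemma prod_seven (S : Finset ℕ) (hS : ∀ p ∈ S, p.Prime) (h7 : S.card = 7) :
    510510 ≤ ∏ p ∈ S, p := by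
  set T : Finset ℕ := {2, 3, 5, 7, 11, 13, 17} with hT
  have hTc : T.card = 7 := by rw [hT]; rfl
  have hbig : ∀ p ∈ S \ T, 19 ≤ p := by
    intro p hp
    obtain ⟨h1, h2⟩ := Finset.mem_sdiff.1 hp
    have hp' := hS p h1
    by_contra hlt
    push Not at hlt
    apply h2
    rw [hT]
    interval_cases p <;> first | decide | (exfalso; revert hp'; decide)
  have hsm : ∀ p ∈ T \ S, p ≤ 19 := by
    intro p hp
    have h1 := (Finset.mem_sdiff.1 hp).1
    rw [hT] at h1
    simp only [Finset.mem_insert, Finset.mem_singleton] at h1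
    omega
  have hcard : (T \ S).card ≤ (S \ T).card := by
    have h1 := Finset.card_sdiff_add_card_inter T S
    have h2 := Finset.card_sdiff_add_card_inter S T
    rw [Finset.inter_comm] at h1
    omega
  have e1 : ∏ p ∈ T, p ≤ ∏ p ∈ S, p := by
    rw [← Finset.prod_inter_mul_prod_sdiff T S (fun p => p),
      ← Finset.prod_inter_mul_prod_sdiff S T (fun p => p), Finset.inter_comm T S]
    refine Nat.mul_le_mul_left _ ?_
    calc ∏ p ∈ T \ S, p ≤ ∏ _p ∈ T \ S, 19 := Finset.prod_le_prod' hsm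
      _ = 19 ^ (T \ S).card := by rw [Finset.prod_const]
      _ ≤ 19 ^ (S \ T).card := Nat.pow_le_pow_right (by norm_num) hcard
      _ = ∏ _p ∈ S \ T, 19 := by rw [Finset.prod_const]
      _ ≤ _ := Finset.prod_le_prod' hbig
  have e2 : ∏ p ∈ T, p = 510510 := by rw [hT]; decide
  omega

/-- transport along an isomorphism -/
lemma NoN_congr {G H : Type u} [Group G] [Group H] (e : G ≃* H) (h : NoN H) : NoN G := by
  intro p hp N hN hNp
  have h1 := h p hp (N.map e.toMonoidHom) (hN.map _ e.surjective) (hNp.map _)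
  rwa [Subgroup.map_eq_bot_iff_of_injective _ e.injective] at h1

/-- radical-free groups with few cyclic subgroups are small -/
theorem small {H : Type*} [Group H] [Finite H] (hN : NoN H) (hc : cyc H < 2 ^ (npr H + 2)) :
    npr H ≤ 6 ∧ Nat.card H < 4 ^ (npr H + 2) := by
  have h9 := four_nine (H := H) (pow_nine fun z hz => five_le hN z hz)
  obtain ⟨-, h7, -⟩ := final_num _ _ Nat.card_pos.ne' h9 hc
  have h2 := card_le_sq (sq_le hN h7)
  have h3 : Nat.card H < 4 ^ (npr H + 2) := by
    calc Nat.card H ≤ cyc H ^ 2 := h2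
      _ < (2 ^ (npr H + 2)) ^ 2 := Nat.pow_lt_pow_left hc (by norm_num)
      _ = 4 ^ (npr H + 2) := by rw [← pow_mul, mul_comm, pow_mul]; norm_num
  refine ⟨?_, h3⟩
  by_contra hlt
  push Not at hlt
  have h8 : npr H = 7 := le_antisymm h7 hlt
  have h5 := prod_seven (Nat.card H).primeFactors
    (fun p hp => Nat.prime_of_mem_primeFactors hp) h8
  have h6 := Nat.le_of_dvd Nat.card_pos (Nat.prod_primeFactors_dvd (Nat.card H))
  rw [h8] at h3
  norm_num at h3
  omega

theorem main2 (G : Type u) [Group G] [Finite G] (h : cyc G < 2 ^ (npr G + 2)) :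
    ∃ (R : Subgroup G) (_ : R.Normal), Group.IsSolvable R ∧
      (∀ M : Subgroup (G ⧸ R), M.Normal → Group.IsSolvable M → M = ⊥) ∧
      cyc (G ⧸ R) < 2 ^ (npr (G ⧸ R) + 2) ∧ npr (G ⧸ R) ≤ 6 ∧
      Nat.card (G ⧸ R) < 4 ^ (npr (G ⧸ R) + 2) := by
  obtain ⟨H, _, _, f, hf, hfs, hH, hc⟩ := reduce _ G rfl h
  have e : (G ⧸ f.ker) ≃* H := QuotientGroup.quotientKerEquivOfSurjective f hf
  have hcard : Nat.card (G ⧸ f.ker) = Nat.card H := Nat.card_congr e.toEquiv
  have hnpr : npr (G ⧸ f.ker) = npr H := by unfold npr; rw [hcard]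
  have hcyc : cyc (G ⧸ f.ker) ≤ cyc H := cyc_pos_surj e.symm.toMonoidHom e.symm.surjective
  have hc' : cyc (G ⧸ f.ker) < 2 ^ (npr (G ⧸ f.ker) + 2) := by
    rw [hnpr]
    exact hcyc.trans_lt hc
  have hN : NoN (G ⧸ f.ker) := NoN_congr e hH
  refine ⟨f.ker, inferInstance, hfs, ?_, hc', small hN hc'⟩
  intro M hM hMs
  by_contra hne
  obtain ⟨p, hp, K, hK1, hK2, hK3⟩ := exists_normal_p M hne
  exact hK3 (hN p hp K hK1 hK2)

/-- no nontrivial solvable normal subgroup -/
def RadFree (G : Type*) [Group G] : Prop :=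
  ∀ M : Subgroup G, M.Normal → Group.IsSolvable M → M = ⊥

lemma NoN_of_radFree {G : Type*} [Group G] [Finite G] (h : RadFree G) : NoN G := by
  intro p hp N hN hNp
  have := Fact.mk hp
  refine h N hN ?_
  have := hNp.isNilpotent
  infer_instance

theorem equiv_small : (∀ (G : Type u) [Group G] [Finite G], cyc G < 2 ^ (npr G + 2) →
      Group.IsSolvable G) ↔
    (∀ (H : Type u) [Group H] [Finite H], Nontrivial H → RadFree H → npr H ≤ 6 →
      Nat.card H < 4 ^ (npr H + 2) → 2 ^ (npr H + 2) ≤ cyc H) := by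
  constructor
  · intro h H _ _ hnt hR _ _
    by_contra hlt
    push Not at hlt
    have h1 := h H hlt
    have h2 : (⊤ : Subgroup H) = ⊥ := hR ⊤ inferInstance inferInstance
    exact top_ne_bot h2
  · intro h G _ _ hc
    obtain ⟨R, hRn, hRs, hRf, hc', h6, h4⟩ := main2 G hc
    rcases subsingleton_or_nontrivial (G ⧸ R) with hs | hn
    · have h0 : Nat.card (G ⧸ R) = 1 := Nat.card_eq_one_iff_unique.2 ⟨hs, ⟨1⟩⟩
      have h1 : R = ⊤ := Subgroup.index_eq_one.1 h0
      subst h1
      exact Group.isSolvable_of_surjective (f := (⊤ : Subgroup G).subtype)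
        (fun x => ⟨⟨x, Subgroup.mem_top x⟩, rfl⟩)
    · have h1 := h (G ⧸ R) hn hRf h6 h4
      omega

end Pool.Agent.H34C
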